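import Pool.Agent.Lib.MP_fc2ced_ag.W.Det
import Pool.Agent.Lib.MP_fc2ced_ag.K.GeoR

/-! A one-parameter group of changes of the first row of a periodic recurrence. It scales the sum
of the row and keeps finitely many given values of the characteristic polynomial. -/

open Function Polynomial

namespace Pool.Agent.Lib.MP_fc2ced_ag.T.W

open K

noncomputable section

section
variable {K : Type} [Field K] {n w : ℕ} {g g' : ℤ → ℕ → K} {Q : K[X]} {r : K}

/-- The sum of a row. -/
def rs (w : ℕ) (g : ℤ → ℕ → K) (i : ℤ) : K := ∑ m ∈ Finset.range (w + 1), g i m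

/-- The second row, normalized and reduced modulo `X ^ n - 1`. -/
def fold (n w : ℕ) (g : ℤ → ℕ → K) : K[X] :=
  if n = 1 then 1 else C (rs w g 1)⁻¹ * ∑ l ∈ Finset.range (w + 1), monomial (l % n) (g 1 l)

/-- The direction of the change. -/
def dir (n w : ℕ) (Q : K[X]) (g : ℤ → ℕ → K) : K[X] := X * fold n w g * Q

/-- The change of the first row. -/
def bmp (n w : ℕ) (Q : K[X]) (r : K) (g : ℤ → ℕ → K) (i : ℤ) (l : ℕ) : K :=
  if (n : ℤ) ∣ i then g i l + (r - 1) * rs w g i * (dir n w Q g).coeff l else g i l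

theorem dir_zero : (dir n w Q g).coeff 0 = 0 := by rw [dir, mul_assoc, coeff_X_mul_zero]

theorem fold_deg (hn : 0 < n) : (fold n w g).natDegree ≤ n - 1 := by
  rw [fold]
  split_ifs
  · simp
  · exact (natDegree_C_mul_le _ _).trans (natDegree_sum_le_of_forall_le _ _ fun l _ =>
      (natDegree_monomial_le _).trans (Nat.le_sub_one_of_lt (Nat.mod_lt _ hn)))

theorem dir_deg (hn : 0 < n) (hw : n + Q.natDegree < w) : (dir n w Q g).natDegree < w := by
  have h1 := fold_deg (w := w) (g := g) hn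
  have h2 : (dir n w Q g).natDegree ≤ _ := natDegree_mul_le.trans
    (Nat.add_le_add_right (natDegree_mul_le.trans (Nat.add_le_add natDegree_X_le h1)) _)
  omega

theorem dir_sum (hn : 0 < n) (hw : n + Q.natDegree < w) (hQ : X ^ n - 1 ∣ Q - 1)
    (h1 : rs w g 1 ≠ 0) : ∑ l ∈ Finset.range (w + 1), (dir n w Q g).coeff l = 1 := by
  have h2 := eval_eq_sum_range' (Nat.lt_succ_of_lt (dir_deg (g := g) hn hw)) 1
  simp only [one_pow, mul_one] at h2
  have h3 : Q.eval 1 = 1 := by simpa [sub_eq_zero] using eval_dvd (x := 1) hQ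
  rw [← h2, dir, eval_mul, eval_mul, eval_X, h3, fold]
  split_ifs
  · simp
  · simpa [eval_finsetSum, rs] using inv_mul_cancel₀ h1

theorem bmp_of_not {i : ℤ} (h : ¬ (n : ℤ) ∣ i) : bmp n w Q r g i = g i :=
  funext fun _ => if_neg h

theorem dir_bmp : dir n w Q (bmp n w Q r g) = dir n w Q g := by
  rw [dir, dir, fold, fold]
  split_ifs with h
  · rfl
  · have h1 : bmp n w Q r g 1 = g 1 :=
      bmp_of_not fun e => h (by exact_mod_cast Int.eq_one_of_dvd_one (by positivity) e)
    rw [rs, rs, h1]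

theorem bmp_band (hn : 0 < n) (hw : n + Q.natDegree < w) (h : Band n w g) (r : K) :
    Band n w (bmp n w Q r g) := by
  have e (i : ℤ) (l : ℕ) (hl : l = 0 ∨ w ≤ l) : bmp n w Q r g i l = g i l := by
    have : (dir n w Q g).coeff l = 0 := hl.elim (fun e => e ▸ dir_zero) fun e =>
      coeff_eq_zero_of_natDegree_lt ((dir_deg hn hw).trans_le e)
    simp [bmp, this]
  exact ⟨fun i l => by simp only [bmp, rs, h.per, dvd_add_self_right],
    fun i => (e i 0 (.inl rfl)).trans (h.one i), fun i => (e i w (.inr le_rfl)).trans_ne (h.top i),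
    fun i l hl => (e i l (.inr hl.le)).trans (h.zero i l hl)⟩

theorem bmp_top (hn : 0 < n) (hw : n + Q.natDegree < w) (i : ℤ) : bmp n w Q r g i w = g i w := by
  simp [bmp, coeff_eq_zero_of_natDegree_lt (dir_deg (g := g) hn hw)]

theorem bmp_one : bmp n w Q 1 g = g := by funext i l; simp [bmp]

theorem rs_bmp (hn : 0 < n) (hw : n + Q.natDegree < w) (hQ : X ^ n - 1 ∣ Q - 1)
    (h1 : rs w g 1 ≠ 0) (i : ℤ) :
    rs w (bmp n w Q r g) i = (if (n : ℤ) ∣ i then r else 1) * rs w g i := by
  split_ifs with h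
  · simp only [rs, bmp, if_pos h, Finset.sum_add_distrib, ← Finset.mul_sum, dir_sum hn hw hQ h1]
    ring
  · rw [rs, bmp_of_not h, one_mul, rs]

theorem bmp_inv (hn : 0 < n) (hw : n + Q.natDegree < w) (hQ : X ^ n - 1 ∣ Q - 1)
    (h1 : rs w g 1 ≠ 0) (hr : r ≠ 0) : bmp n w Q r⁻¹ (bmp n w Q r g) = g := by
  funext i l
  rw [bmp, rs_bmp hn hw hQ h1, dir_bmp, bmp]
  split_ifs
  · field_simp
    ring
  · rfl

/-- The values of the characteristic polynomial that are kept. -/
theorem chi_bmp (hn : 0 < n) (hw : n + Q.natDegree < w) (hQ : X ^ n - 1 ∣ Q - 1)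
    (h : Band n w g) {y : K} (hy : C y * X ^ n - 1 ∣ Q ∨ y = 1 ∧ n ≠ 1) :
    (chi n (Sol w (bmp n w Q r g))).eval y = (chi n (Sol w g)).eval y := by
  have c0 (p : K[X]) : ((C y * X ^ n - 1) * p).coeff 0 = -p.coeff 0 := by
    simp [mul_coeff_zero, coeff_X_pow, hn.ne]
  have hA : (C y * X ^ n - 1 : K[X]) ≠ 0 := fun e => by simpa [e] using c0 1
  have dw : (C ((r - 1) * rs w g 0) * dir n w Q g).natDegree < w :=
    (natDegree_C_mul_le _ _).trans_lt (dir_deg hn hw)
  have d0 : (C ((r - 1) * rs w g 0) * dir n w Q g).coeff 0 = 0 := by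
    rw [coeff_C_mul, dir_zero, mul_zero]
  have key (κ : K) (p : K[X]) (e : C ((r - 1) * rs w g 0) * dir n w Q g =
      C κ * (X * row w g 1) + (C y * X ^ n - 1) * p) (pw : p.natDegree < w) :=
    chi_eval hn h (bmp_band hn hw h r) (fun l => by rw [bmp, if_pos (dvd_zero _), coeff_C_mul])
      (fun i h0 hi => bmp_of_not fun e =>
        (Nat.le_of_dvd h0 (Int.natCast_dvd_natCast.1 e)).not_gt hi) d0 dw.le (by
        have h2 := congrArg (coeff · 0) e
        simp only [d0, coeff_add, c0, coeff_C_mul, coeff_X_mul_zero] at h2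
        simpa using h2) pw e
  rcases hy with hy | ⟨rfl, h1⟩
  · obtain ⟨p, hp⟩ : C y * X ^ n - 1 ∣ C ((r - 1) * rs w g 0) * dir n w Q g :=
      (hy.mul_left _).mul_left _
    refine key 0 p (by rw [hp, C_0, zero_mul, zero_add]) ?_
    rcases eq_or_ne p 0 with rfl | h0
    · rw [natDegree_zero]; omega
    · rw [hp, natDegree_mul hA h0] at dw; omega
  · rw [C_1, one_mul] at hA key
    have h2 : X ^ n - 1 ∣ ∑ l ∈ Finset.range (w + 1), monomial (l % n) (g 1 l) - row w g 1 := by
      rw [row, ← Finset.sum_sub_distrib]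
      refine Finset.dvd_sum fun l _ => ?_
      have h3 := sub_dvd_pow_sub_pow (X ^ n : K[X]) 1 (l / n)
      rw [one_pow, ← pow_mul] at h3
      convert (h3.mul_left (-monomial (l % n) (g 1 l))) using 1
      rw [mul_sub, mul_one, neg_mul, monomial_mul_X_pow, Nat.mod_add_div]
      ring
    obtain ⟨p, hp⟩ : X ^ n - 1 ∣ C ((r - 1) * rs w g 0) * dir n w Q g -
        C ((r - 1) * rs w g 0 * (rs w g 1)⁻¹) * (X * row w g 1) := by
      convert ((hQ.mul_left (∑ l ∈ Finset.range (w + 1), monomial (l % n) (g 1 l))).add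
        h2).mul_left (C ((r - 1) * rs w g 0 * (rs w g 1)⁻¹) * X) using 1
      rw [dir, fold, if_neg h1, C_mul (b := (rs w g 1)⁻¹)]
      ring
    refine key _ p (eq_add_of_sub_eq' hp) ?_
    rcases eq_or_ne p 0 with rfl | h0
    · rw [natDegree_zero]; omega
    · have h3 : (row w g 1).natDegree ≤ w := natDegree_sum_le_of_forall_le _ _ fun l hl =>
        (natDegree_monomial_le _).trans (Nat.le_of_lt_succ (Finset.mem_range.1 hl))
      have h4 := (congrArg natDegree hp).symm.trans_le (natDegree_sub_le_of_le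
        (dw.le.trans w.le_succ) ((natDegree_C_mul_le _ _).trans
          (natDegree_mul_le.trans (Nat.add_le_add natDegree_X_le h3))))
      rw [natDegree_mul hA h0, ← C_1, natDegree_X_pow_sub_C] at h4
      omega

end

theorem cr_bmp {k : Type} [Field k] {K K' : Fld k} {φ : Place K K'} {n w : ℕ} {g : ℤ → ℕ → K}
    {g' : ℤ → ℕ → K'} (h : φ.CR g g') (h1 : rs w g' 1 ≠ 0) {Q : K[X]} {Q' : K'[X]}
    (hQ : φ.PR Q Q') {r : K} {r' : K'} (hr : φ r r') :
    φ.CR (bmp n w Q r g) (bmp n w Q' r' g') := by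
  have h2 (i : ℤ) : φ (rs w g i) (rs w g' i) := Place.sum fun m _ => h i m
  have h3 : φ.PR (fold n w g) (fold n w g') := by
    rw [fold, fold]
    split_ifs
    · exact .one
    · refine (Place.PR.C ((h2 1).inv h1)).mul fun i => ?_
      simp only [finsetSum_coeff, coeff_monomial]
      refine Place.sum fun l _ => ?_
      split_ifs
      exacts [h 1 l, φ.zero]
  intro i l
  simp only [bmp]
  split_ifs
  exacts [(h i l).add (((hr.sub φ.one).mul (h2 i)).mul ((Place.PR.X.mul h3).mul hQ l)), h i l]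

end

end Pool.Agent.Lib.MP_fc2ced_ag.T.W
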