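import Pool.Agent.Lib.MP_fc2ced_ag.T.Cov
import Pool.Agent.Lib.MP_fc2ced_ag.T.PV

/-! Locally closed parts of the line with an invertible function, and their pull-backs. -/

open CategoryTheory Function Polynomial

namespace Pool.Agent.Lib.MP_fc2ced_ag.T

open K

noncomputable section

variable {k : Type} [Field k] {F : Type} [Field F] {χ : Chr k F}

open Ob
open MP_fc2ced_ag.T.Pt hiding X

variable (k) in
/-- A locally closed part of the line with an invertible function. -/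
structure Cv where
  T : (line k).Cond
  conv : (line k).Conv T
  g : ∀ ⦃K : Fld k⦄, K → K
  reg : ((line k).restr T conv).RegF g
  ne : ∀ ⦃K : Fld k⦄ (s : K), T s → g s ≠ 0

namespace Cv

variable (D : Cv k) (S : Pt k) (l : ∀ ⦃K⦄, S.X K → K) (hl : S.RegF l)

/-- The pull-back along a regular function. -/
@[reducible] def pb : Pt k :=
  (S.restr (fun _ x => D.T (l x)) fun _ _ _ φ φ' x y z a b c r r' =>
    D.conv φ φ' _ _ _ trivial trivial trivial (hl φ x y a b r) (hl φ' y z b c r')).withF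
    (fun _ x => S.f x * D.g (l x))
    (fun _ _ φ x y a b r => (S.reg φ x y a.1 b.1 r).mul
      (D.reg φ _ _ ⟨trivial, a.2⟩ ⟨trivial, b.2⟩ (hl φ x y a.1 b.1 r)))
    fun _ x a => mul_ne_zero (S.ne x a.1) (D.ne _ a.2)

/-- The part of the curve in the multiplicative group. -/
@[reducible] def cur : Pt k := D.pb (gm k) (fun _ x => x) fun _ _ _ _ _ _ _ r => r

/-- The vectors of the box whose product lies on the curve. -/
@[reducible] def tw {α : Type} [Fintype α] (b : α → ℤ) : Pt k :=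
  D.pb (box k b) (fun _ x => ∏ i, x i) fun _ _ _ _ _ _ _ r => Place.prod fun i _ => r i

/-- The intersection with a locally closed condition. -/
@[reducible] def sub (U : (line k).Cond) (h : (line k).Conv U) : Cv k where
  T _ s := D.T s ∧ U s
  conv := D.conv.and h
  g := D.g
  reg _ _ φ _ _ a b r := D.reg φ _ _ ⟨trivial, a.2.1⟩ ⟨trivial, b.2.1⟩ r
  ne _ s a := D.ne s a.1

variable {D S l hl} {D' : Cv k}

theorem pb_congr (h : ∀ ⦃K⦄ (x : S.X K), S.L x →
    (D.T (l x) ↔ D'.T (l x)) ∧ (D.T (l x) → D'.g (l x) = D.g (l x))) :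
    Eqv ((D.pb S l hl).E χ) ((D'.pb S l hl).E χ) :=
  eqv_of_inv (e := fun _ x => x) (g := fun _ x => x)
    ⟨fun _ x a => ⟨a.1, (h x a.1).1.1 a.2⟩, fun _ _ _ _ _ _ _ r => r⟩
    ⟨fun _ x a => ⟨a.1, (h x a.1).1.2 a.2⟩, fun _ _ _ _ _ _ _ r => r⟩
    (fun _ x a => congrArg (S.f x * ·) ((h x a.1).2 a.2)) (fun _ _ _ => rfl) fun _ _ _ => rfl

variable {ρ : Type} (s : Finset ρ) (y : ρ → k) (e : ρ → ℤ) {c : k} (hc : c ≠ 0)

/-- The line without finitely many rational points, with a monomial in the linear forms. -/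
@[reducible] def op : Cv k where
  T K t := ∀ j ∈ s, t ≠ algebraMap k K (y j)
  conv := Open.conv fun _ _ φ _ _ _ _ r h j hj e => h j hj (r.eq_of (φ.alg _) e)
  g K t := algebraMap k K c * ∏ j ∈ s, (algebraMap k K (y j) - t) ^ e j
  reg _ _ φ _ _ _ b r := (φ.alg c).mul (Place.prod fun j hj =>
    rel_zpow ((φ.alg _).sub r) (sub_ne_zero.2 (b.2 j hj).symm) _)
  ne _ _ a := mul_ne_zero ((_root_.map_ne_zero _).2 hc) (Finset.prod_ne_zero_iff.2 fun j hj =>
    zpow_ne_zero _ (sub_ne_zero.2 (a j hj).symm))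

/-- The space of values of a polynomial at the points. -/
@[reducible] def opP (w : ℕ) : Pt k :=
  ((gm k).pi s).withF (fun K p => algebraMap k K c ^ w * ∏ j : s, p j ^ e j)
    (fun _ _ φ _ _ _ b r => ((φ.alg c).pow w).mul (Place.prod fun j _ => rel_zpow (r j) (b j).2 _))
    fun _ _ a => mul_ne_zero (pow_ne_zero _ ((_root_.map_ne_zero _).2 hc))
      (Finset.prod_ne_zero_iff.2 fun j _ => zpow_ne_zero _ (a j).2)

/-- The parameters are the values of the polynomial at the points. -/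
def opT (w : ℕ) : PC (opP s e hc w) where
  T K d p := ∀ j : s, p j = (d w).eval (algebraMap k K (y j))
  conv _ _ _ φ _ _ _ _ _ _ _ _ _ _ h _ r _ t _ j :=
    (r j).eq_of ((h w).eval (φ.alg _)) (t j)

theorem opT_dep {w : ℕ} {J : Set ℕ} (h : w ∈ J) : (opT s y e hc w).Dep J :=
  fun _ _ _ _ e t j => e w h ▸ t j

/-- A relation between the permutations over the space of values gives Schur-finiteness. -/
theorem sf_op {w : ℕ} {d : ∀ ⦃K⦄, (S.pi (Fin w)).X K → ℕ → K[X]}
    {hd : ∀ m, (S.pi (Fin w)).RegP fun _ x => d x m}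
    (hw : ∀ ⦃K⦄ (x : (S.pi (Fin w)).X K), d x w = ∏ a, (X - C (l (x a))))
    {r : Equiv.Perm (Fin w) → F} (hr : r ≠ 0)
    (h : Null (∑ σ, r σ • ov χ ⟨_, d, hd⟩ ⟨_, d, hd⟩ (opT s y e hc w) fun _ x a => x (σ.symm a))) :
    SF (((op s y e hc).pb S l hl).E χ) := by
  have ev {K : Fld k} (x : Fin w → S.X K) (t : K) : (d x w).eval t = ∏ a, (t - l (x a)) := by
    simp [hw, eval_prod]
  have lv {K : Fld k} {x : (PV.over ⟨_, d, hd⟩ (opT s y e hc w)).X K}
      (a : (PV.over ⟨_, d, hd⟩ (opT s y e hc w)).L x) :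
      (((op s y e hc).pb S l hl).pi (Fin w)).L x.1 := fun b => ⟨a.1.1 b, fun j hj e =>
    (a.1.2 ⟨j, hj⟩).2 ((a.2 ⟨j, hj⟩).trans ((ev _ _).trans
      (Finset.prod_eq_zero (Finset.mem_univ b) (sub_eq_zero.2 e.symm))))⟩
  have lv' {K : Fld k} {x : Fin w → S.X K} (a : (((op s y e hc).pb S l hl).pi (Fin w)).L x) :
      (PV.over ⟨_, d, hd⟩ (opT s y e hc w)).L
        (x, fun j : s => (d x w).eval (algebraMap k K (y j))) :=
    ⟨⟨fun b => (a b).1, fun j => ⟨trivial, (ev _ _).trans_ne (Finset.prod_ne_zero_iff.2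
      fun b _ => sub_ne_zero.2 ((a b).2 j j.2).symm)⟩⟩, fun _ => rfl⟩
  have m : IsMap (PV.over ⟨_, d, hd⟩ (opT s y e hc w)) (((op s y e hc).pb S l hl).pi (Fin w))
      fun _ x => x.1 := by
    refine .of_inv (g := fun K x => (x, fun j : s => (d x w).eval (algebraMap k K (y j))))
      ⟨fun _ _ => lv, fun _ _ _ _ _ _ _ h => h.1⟩
      ⟨fun _ _ => lv', fun _ _ φ _ _ a b h => ⟨h, fun j =>
        (hd w φ _ _ (fun i => (a i).1) (fun i => (b i).1) h).eval (φ.alg _)⟩⟩
      (fun K x a => ?_) fun _ x a => Prod.ext rfl (funext fun j => (a.2 j).symm)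
    change ∏ b, S.f (x.1 b) *
        (algebraMap k K c * ∏ j ∈ s, (algebraMap k K (y j) - l (x.1 b)) ^ e j) =
      (∏ b, S.f (x.1 b)) * (algebraMap k K c ^ w * ∏ j : s, x.2 j ^ e j)
    simp only [Finset.prod_mul_distrib, Finset.prod_const, Finset.card_univ, Fintype.card_fin,
      fun j => (a.2 j).trans (ev _ _), ← Finset.prod_zpow]
    rw [Finset.prod_comm, ← Finset.prod_coe_sort s]
  have hb : Bij (m.hom χ ≫ (isLift_pow χ ((op s y e hc).pb S l hl) (Fin w)).hom) :=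
    (m.bij (fun _ _ => lv) (fun _ x x' a a' h => Prod.ext h (funext fun j =>
      (a.2 j).trans (by rw [a'.2 j, show x.1 = x'.1 from h]))) fun _ x h =>
        ⟨_, lv' h, rfl⟩).comp (bij_pow _)
  refine ⟨w, r, hr, .of_uiso_comp hb.uiso ?_⟩
  convert h.comp (m.hom χ ≫ (isLift_pow χ ((op s y e hc).pb S l hl) (Fin w)).hom) using 1
  rw [act, Preadditive.comp_sum, Preadditive.sum_comp]
  refine Finset.sum_congr rfl fun σ _ => ?_
  have h1 : IsMap (PV.over ⟨_, d, hd⟩ (opT s y e hc w)) (PV.over ⟨_, d, hd⟩ (opT s y e hc w))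
      fun _ x => (fun a => x.1 (σ.symm a), x.2) :=
    PMap.over (V := ⟨_, d, hd⟩) (V' := ⟨_, d, hd⟩) (J := {w})
      ⟨S.isMap_perm σ, fun _ x _ _ m hm => by
      rw [Set.mem_singleton_iff.1 hm]
      exact (hw _).trans ((Equiv.prod_comp σ.symm fun a => X - C (l (x a))).trans (hw x).symm)⟩ (opT_dep s y e hc rfl)
  have h2 : h1.hom χ ≫ m.hom χ = m.hom χ ≫ (((op s y e hc).pb S l hl).isMap_perm σ).hom χ := by
    refine h1.comm _ _ _ (fun _ x hx => ?_) fun _ _ _ _ _ => rfl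
    refine iff_of_true ⟨⟨⟨fun b => hx.1.1 _, hx.1.2⟩, fun j => (hx.2 j).trans ?_⟩,
      fun b => lv hx _⟩ ⟨lv hx, fun b => lv hx _⟩
    rw [ev, ev]
    exact (Equiv.prod_comp σ.symm fun a => _ - l (x.1 a)).symm
  rw [ov, h1.hm_eq, Linear.comp_smul, Category.assoc, ← pow_perm, ← Category.assoc, ← h2,
    Category.assoc]
  exact (Linear.smul_comp _ _ _ _ _ _).symm

end Cv

end

end Pool.Agent.Lib.MP_fc2ced_ag.T
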