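import Pool.Agent.Lib.MP_fc2ced_ag.W.Big
import Pool.Agent.Lib.MP_fc2ced_ag.W.Bmp
import Pool.Agent.Lib.MP_fc2ced_ag.W.Cv

/-! Total spaces of twisted hypergeometric families with nontrivial exponents. -/

open CategoryTheory hiding forget
open Function Polynomial

namespace Pool.Agent.Lib.MP_fc2ced_ag.T.W

open K

noncomputable section

theorem exists_Q {k ρ : Type} [Field k] (n : ℕ) (s : Finset ρ) (y : ρ → k) : ∃ Q : k[X],
    X ^ n - 1 ∣ Q - 1 ∧ ∀ j ∈ s, y j ≠ 1 → C (y j) * X ^ n - 1 ∣ Q := by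
  classical
  induction s using Finset.induction_on with
  | empty => exact ⟨1, by simp, by simp⟩
  | insert a s _ ih =>
    obtain ⟨Q, h1, h2⟩ := ih
    by_cases h : y a = 1
    · exact ⟨Q, h1, Finset.forall_mem_insert _ _ _ |>.2 ⟨fun e => absurd h e, h2⟩⟩
    refine ⟨Q * (C (y a - 1)⁻¹ * (C (y a) * X ^ n - 1)), ?_, Finset.forall_mem_insert _ _ _ |>.2
      ⟨fun _ => ((dvd_refl _).mul_left _).mul_left _, fun j hj e => (h2 j hj e).mul_right _⟩⟩
    have h3 : C (y a - 1)⁻¹ * (C (y a) - 1) = 1 := by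
      rw [← C_1, ← C_sub, ← C_mul, inv_mul_cancel₀ (sub_ne_zero.2 h)]
    convert h1.add ((dvd_refl _).mul_left (Q * C (y a - 1)⁻¹ * C (y a))) using 1
    linear_combination Q * h3

section Flags
variable {K : Type} [Field K] {n w : ℕ} {Q : K[X]} {r : K} {x : ℕ → Sp K}

/-- The change of the first row, on flags with only one member. -/
def bmpF (n w : ℕ) (Q : K[X]) (r : K) (x : ℕ → Sp K) (i : ℕ) : Sp K :=
  if i = w then Sol w (bmp n w Q r (coef n w (x w))) else ⊥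

theorem bmpF_top : bmpF n w Q r x w = Sol w (bmp n w Q r (coef n w (x w))) := if_pos rfl

variable (h : T.Flag n w ∅ x)
include h

theorem rs_ne (i : ℤ) : rs w (coef n w (x w)) i ≠ 0 := (dU_apply _ i).symm.trans_ne (h.trel.2 i)

theorem eq_top (i : ℕ) : (if i = w then Sol w (coef n w (x w)) else ⊥) = x i := by
  rw [← h.rel.eq_sol]
  split_ifs with e
  · rw [e]
  · exact (h.bot i (by simp) e).symm

variable (hn : 0 < n) (hw : n + Q.natDegree < w) (hQ : X ^ n - 1 ∣ Q - 1)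
include hn hw hQ

theorem dU_bmpF (i : ℤ) :
    dU n w (bmpF n w Q r x w) i = (if (n : ℤ) ∣ i then r else 1) * dU n w (x w) i := by
  rw [bmpF_top, dU_apply, dU_apply, (bmp_band hn hw h.rel.band r).coef_sol]
  exact rs_bmp hn hw hQ (rs_ne h 1) i

theorem bmpF_flag (hr : r ≠ 0) : T.Flag n w ∅ (bmpF n w Q r x) :=
  ⟨⟨bmpF_top (r := r) ▸ (bmp_band hn hw h.rel.band r).rel, fun i => by
    rw [dU_bmpF h hn hw hQ]
    exact mul_ne_zero (by split_ifs; exacts [hr, one_ne_zero]) (h.trel.2 i)⟩,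
    by simp, by simp, by simp, by simp, fun _ _ e => if_neg e⟩

theorem bmpF_inv (hr : r ≠ 0) : bmpF n w Q r⁻¹ (bmpF n w Q r x) = x := funext fun i => by
  rw [bmpF, bmpF_top, (bmp_band hn hw h.rel.band r).coef_sol, bmp_inv hn hw hQ (rs_ne h 1) hr,
    eq_top h]

theorem fU_bmpF [Ex n] :
    T.fU n w (bmpF n w Q r x w) = T.fU n w (x w) * r ^ (-Ex.b (0 : Fin n)) := by
  simp only [T.fU, dU_bmpF h hn hw hQ, mul_zpow, Finset.prod_mul_distrib]
  rw [Finset.prod_eq_single 0 (fun i _ hi => by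
    rw [if_neg fun e => hi (Fin.ext (Nat.eq_zero_of_dvd_of_lt (Int.natCast_dvd_natCast.1 e) i.2)),
      one_zpow]) (by simp), if_pos (by simp), mul_comm]

theorem chi_bmpF {y : K} (hy : C y * X ^ n - 1 ∣ Q ∨ y = 1 ∧ n ≠ 1) :
    (chi n (bmpF n w Q r x w)).eval y = (chi n (x w)).eval y := by
  rw [bmpF_top, chi_bmp hn hw hQ h.rel.band hy, ← h.rel.eq_sol]

end Flags

variable {k : Type} [Field k] {F : Type} [Field F] {χ : Chr k F} {n : ℕ} [Ex n]

open MP_fc2ced_ag.T.Pt hiding X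

theorem null_of_quo {Z A B : Ob k F} {j : Z ⟶ A} {q : Z ⟶ B} {e : A ⟶ A} (h : Quo j q e)
    (hj : UIso j) (hB : UZero B) : Null e := fun Θ => by
  obtain ⟨α, hα⟩ := Roof.ex hj q Θ
  obtain ⟨s, -, hs⟩ := h Θ α hα
  rw [← hs, (hB Θ).eq_zero_of_tgt α, Limits.zero_comp]

variable {ρ : Type} (s : Finset ρ) (y : ρ → k) (e : ρ → ℤ) {c : k} (hc : c ≠ 0)

/-- The space of all operators of large order has no cohomology. -/
theorem uzero_op (hχ : χ.Gen n) (h1 : n = 1 → ∀ j ∈ s, y j ≠ 1) :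
    ∃ w, UZero (((Zv k n w ∅).over (Cv.opT s y e hc w)).E χ) := by
  obtain ⟨Q, q1, q2⟩ := exists_Q n s y
  have hn := NeZero.pos n
  have hw (K : Fld k) : n + (Q.map (algebraMap k K)).natDegree < n + Q.natDegree + 1 :=
    Nat.lt_succ_of_le (Nat.add_le_add_left natDegree_map_le n)
  have hQ (K : Fld k) : X ^ n - 1 ∣ Q.map (algebraMap k K) - 1 := by
    simpa using Polynomial.map_dvd (algebraMap k K) q1
  have hy (K : Fld k) (j : s) : C (algebraMap k K (y j)) * X ^ n - 1 ∣ Q.map (algebraMap k K) ∨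
      algebraMap k K (y j) = 1 ∧ n ≠ 1 := by
    by_cases h : y j = 1
    · exact .inr ⟨by rw [h, map_one], fun e => h1 e j j.2 h⟩
    · exact .inl (by simpa using Polynomial.map_dvd (algebraMap k K) (q2 j j.2 h))
  refine ⟨n + Q.natDegree + 1, Flow.uzero (hχ.neg 0)
    (τ := fun K r x => (bmpF n _ (Q.map (algebraMap k K)) r x.1, x.2))
    ⟨fun K r x hr h => ⟨⟨bmpF_flag h.1.1 hn (hw K) (hQ K) hr, h.1.2⟩, fun j =>
        (h.2 j).trans (chi_bmpF h.1.1 hn (hw K) (hQ K) (hy K j)).symm⟩,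
      fun _ _ h => Prod.ext (funext fun i => by simp only [bmpF, bmp_one, eq_top h.1.1]) rfl,
      fun K r _ hr h => Prod.ext (bmpF_inv h.1.1 hn (hw K) (hQ K) hr) rfl,
      fun K r x _ h => (congrArg (· * (Cv.opP s e hc _).f x.2)
        (fU_bmpF h.1.1 hn (hw K) (hQ K))).trans (mul_right_comm _ _ _),
      fun K K' φ r r' _ _ hr _ a b h => ⟨fun i => ?_, h.2⟩⟩⟩
  simp only [bmpF]
  split_ifs
  · refine Place.CR.sol (cr_bmp ((h.1 _).coef a.1.1.rel b.1.1.rel) (rs_ne b.1.1 1) (fun i => ?_) hr)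
      (bmp_band hn (hw K) a.1.1.rel.band r) (bmp_band hn (hw K') b.1.1.rel.band r')
    rw [coeff_map, coeff_map]
    exact φ.alg _
  · exact .bot

theorem sf_gen [CharZero F] (hχ : χ.Gen n) (h1 : n = 1 → ∀ j ∈ s, y j ≠ 1) :
    SF (((Cv.op s y e hc).tw (Ex.b (n := n))).E χ) := by
  obtain ⟨w, hw⟩ := uzero_op s y e hc hχ h1
  have d : (Cv.opT s y e hc w).Dep (JI w ∅) := Cv.opT_dep s y e hc (.inr rfl)
  have h := null_of_quo (hb hχ (Finset.empty_subset _) _ _ d)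
    ((isRoof hχ (Finset.empty_subset _)).uiso _ _ d) hw
  rw [show yS w ∅ = Finset.univ from Finset.eq_univ_of_forall fun σ =>
    GeoAux.mem_yS.2 (young_empty w ▸ Subgroup.mem_top _)] at h
  refine Cv.sf_op s y e hc (d := fun _ x m => chiA x m) (fun _ x => chiA_top x)
    (r := yR F n w ∅) (fun h0 => ?_) h
  simpa [yR, Nat.card_pos.ne'] using congrFun h0 1

end

end Pool.Agent.Lib.MP_fc2ced_ag.T.W
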