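import Pool.Agent.Lib.MP_fc2ced_ag.T.Hb

/-! The statements on roofs of flags, without a bound for the number of operators. -/

open CategoryTheory hiding forget
open Function Polynomial

namespace Pool.Agent.Lib.MP_fc2ced_ag.T.W

open K

noncomputable section

variable {k : Type} [Field k] {F : Type} [Field F] {χ : Chr k F} {n : ℕ} [Ex n] {w j l : ℕ}
  {I : Finset ℕ} {P : Pt k} {T : PC P}

open MP_fc2ced_ag.T.Pt Place ProdAux EigA HbAux HaAux

theorem uu_full (hχ : χ.Gen n) : ∀ w, UU χ (Zv k n w (Finset.Ioo 0 w)) (Av k n w)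
    (JI w (Finset.Ioo 0 w)) fun _ x => jmap n w x := by
  intro w
  induction w using Nat.strong_induction_on with
  | _ w ih =>
  intro P T hT
  by_cases h1 : w ≤ 1
  · have ar : ∀ {K : Fld k} {x : ℕ → Sp K}, Flag n w (Finset.Ioo 0 w) x → AllRel n w x := by
      intro K x h i hi
      by_cases e : i = w
      · exact e ▸ h.trel
      · obtain rfl : i = 0 := by omega
        rw [h.bot 0 (by simp) e]
        exact trel_zero_iff.2 rfl
    refine (pmap_jmap.ov_bij hT (fun _ x h => (jmap_live_iff h).2 (ar h))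
      (fun _ x x' h h' e => ?_) fun _ y h => ?_).uiso
    · rw [← (Flag.jmap_spec h (ar h)).2, ← (Flag.jmap_spec h' (ar h')).2]
      exact congrArg flagOf e
    · have := flagOf_flag (x := y) fun a => (h a).2
      exact ⟨flagOf y, this.1, this.2.2⟩
  · obtain ⟨l, rfl⟩ : ∃ l, w = 1 + l := ⟨w - 1, by omega⟩
    have hj : 1 ∈ Finset.Ioo 0 (1 + l) := Finset.mem_Ioo.2 (by omega)
    refine (uiso_spA T).of_comp_right ?_
    rw [← sq₁ (Finset.Subset.refl _) hj hT]
    have h2 := uu_split (k := k) hχ (Finset.Subset.refl _) hj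
    have h3 := hT.mono (JI_add (Finset.Subset.refl _) hj)
    rw [lowI_full (by omega), uppI_full one_pos] at h2 h3
    exact (h2 P T hT).comp (UU.ten pmap_jmap pmap_jmap (Or.inr rfl) (ih 1 (by omega))
      (ih l (by omega)) P T h3)

theorem isRoof (hχ : χ.Gen n) (hI : I ⊆ Finset.Ioo 0 w) :
    IsRoof χ (JI w I) (Av k n w) (Zv k n w (Finset.Ioo 0 w)) (Zv k n w I) (fun _ x => jmap n w x)
      fun _ x => forget w I x :=
  ⟨pmap_jmap.mono (JI_mono hI), pmap_forget hI, fun _ _ h => Flag.forget_flag h hI,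
    fun P T hT => uu_full hχ w P T (hT.mono (JI_mono hI))⟩

theorem ha_mono (hχ : χ.Gen n) {I' : Finset ℕ} (hI : I ⊆ I')
    (hI' : I' ⊆ Finset.Ioo 0 w) {σ : Equiv.Perm (Fin w)} (h : Ha χ n w I' σ) : Ha χ n w I σ := by
  intro P T hT
  rw [← ((pmap_forget hI').mono (JI_mono hI)).ov_comp (pmap_forget hI) hT
    (pmap_forget (hI.trans hI')) (fun _ _ h _ => Flag.forget_flag h hI')
    fun _ _ _ _ => forget_forget hI]
  exact (h P T (hT.mono (JI_mono hI))).postcomp ((isRoof hχ (hI.trans hI')).uiso P T hT) _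

section
variable (hχ : χ.Gen n) (hI : I ⊆ Finset.Ioo 0 (j + l)) (hj : j ∈ I)
include hχ hI hj

theorem roof2 : IsRoof χ (addJ j (JI j (lowI j I)) (JI l (uppI j I)))
    ((Av k n j).ten j (Av k n l)) ((Zv k n j (Finset.Ioo 0 j)).ten j (Zv k n l (Finset.Ioo 0 l)))
    ((Zv k n j (lowI j I)).ten j (Zv k n l (uppI j I))) (fun _ x => (jmap n j x.1, jmap n l x.2))
    fun _ x => (forget j (lowI j I) x.1, forget l (uppI j I) x.2) :=
  have _ := hj
  (isRoof hχ (lowI_subset hI)).ten (isRoof hχ (uppI_subset hI)) (Or.inr rfl)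

theorem ha2 {s : Equiv.Perm (Fin j)} {t : Equiv.Perm (Fin l)} (hs : s ∈ Young j (lowI j I))
    (ht : t ∈ Young l (uppI j I))
    (h : UKills χ (addJ j (JI j (lowI j I)) (JI l (uppI j I))) ((Av k n j).ten j (Av k n l))
      ((Zv k n j (Finset.Ioo 0 j)).ten j (Zv k n l (Finset.Ioo 0 l)))
      ((Zv k n j (lowI j I)).ten j (Zv k n l (uppI j I))) (fun _ x => (jmap n j x.1, jmap n l x.2))
      (fun _ x => (forget j (lowI j I) x.1, forget l (uppI j I) x.2))
      (fun _ x => (pm s x.1, pm t x.2)) (eps F n j s * eps F n l t)) :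
    Ha χ n (j + l) I (pp s t) := by
  intro P T hT
  have hT' := hT.mono (JI_add hI hj)
  refine Kills.of_postcomp (uu_split hχ hI hj P T hT) ?_
  rw [← Kills.of_map ((isRoof hχ hI).uiso P T hT) ((roof2 hχ hI hj).uiso P T hT')
    (sq₁ hI hj hT) (sq₂ hI hj hT), Preadditive.sub_comp, sq₃ hI hj hT hs ht, eps_pp,
    Linear.smul_comp, Category.id_comp]
  have := (h P T hT').precomp (ov χ (Av k n (j + l)) ((Av k n j).ten j (Av k n l)) T
    fun _ x => (fun a => x (Fin.castAdd l a), fun b => x (Fin.natAdd j b)))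
  rwa [Preadditive.comp_sub, Linear.comp_smul, Category.comp_id] at this

theorem ha_left {a b : Fin j} (hab : a ≠ b) (hs : Equiv.swap a b ∈ Young j (lowI j I))
    (h : Ha χ n j (lowI j I) (Equiv.swap a b)) :
    Ha χ n (j + l) I (Equiv.swap (Fin.castAdd l a) (Fin.castAdd l b)) := by
  have _ := hab
  rw [swap_left]
  refine ha2 hχ hI hj hs (one_mem _) ?_
  rw [map_one, mul_one]
  exact UKills.ten_left (isRoof hχ (lowI_subset hI))
    (isRoof hχ (uppI_subset hI)) (Or.inr rfl) (pend_pm hs) h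

theorem ha_right {a b : Fin l} (hab : a ≠ b) (hs : Equiv.swap a b ∈ Young l (uppI j I))
    (h : Ha χ n l (uppI j I) (Equiv.swap a b)) :
    Ha χ n (j + l) I (Equiv.swap (Fin.natAdd j a) (Fin.natAdd j b)) := by
  have _ := hab
  rw [swap_right]
  refine ha2 hχ hI hj (one_mem _) hs ?_
  rw [map_one, one_mul]
  exact UKills.ten_right (isRoof hχ (lowI_subset hI))
    (isRoof hχ (uppI_subset hI)) (Or.inr rfl) (pend_pm hs) h

theorem hb_prod [CharZero F] (h : Hb χ n j (lowI j I)) (h' : Hb χ n l (uppI j I)) :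
    Hb χ n (j + l) I := by
  intro P T hT
  have hT' := hT.mono (JI_add hI hj)
  have m1 : ∀ g ∈ yS j (lowI j I) ×ˢ yS l (uppI j I), pp g.1 g.2 ∈ yS (j + l) I := fun g hg =>
    mem_yS.2 (pp_mem.2 ⟨mem_yS.1 (Finset.mem_product.1 hg).1, mem_yS.1 (Finset.mem_product.1 hg).2⟩)
  have m2 : ∀ g ∈ yS j (lowI j I) ×ˢ yS l (uppI j I), ∀ g' ∈ yS j (lowI j I) ×ˢ yS l (uppI j I),
      pp g.1 g.2 = pp g'.1 g'.2 → g = g' := fun g _ g' _ e => Prod.ext (pp_inj e).1 (pp_inj e).2
  have m3 : ∀ σ ∈ yS (j + l) I, ∃ g, ∃ _ : g ∈ yS j (lowI j I) ×ˢ yS l (uppI j I),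
      pp g.1 g.2 = σ := by
    intro σ hσ
    obtain ⟨s, t, rfl⟩ := pp_surj hj (mem_yS.1 hσ)
    have := pp_mem.1 (mem_yS.1 hσ)
    exact ⟨(s, t), Finset.mem_product.2 ⟨mem_yS.2 this.1, mem_yS.2 this.2⟩, rfl⟩
  have hc : Nat.card (Young (j + l) I) =
      Nat.card (Young j (lowI j I)) * Nat.card (Young l (uppI j I)) := by
    rw [Nat.subtype_card _ fun _ => mem_yS, Nat.subtype_card _ fun _ => mem_yS,
      Nat.subtype_card _ fun _ => mem_yS, ← Finset.card_product]
    exact (Finset.card_bij (fun g _ => pp g.1 g.2) m1 m2 m3).symm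
  refine (Quo.uiso_iff ((isRoof hχ hI).uiso P T hT) ((roof2 hχ hI hj).uiso P T hT')
    (sq₁ hI hj hT) (sq₂ hI hj hT) (uiso_spA T) (uu_split hχ hI hj P T hT) ?_).2
    (UQuo.ten (isRoof hχ (lowI_subset hI)) (isRoof hχ (uppI_subset hI))
      (Or.inr rfl) (fun _ hg => pend_pm (mem_yS.1 hg)) (fun _ hg => pend_pm (mem_yS.1 hg))
      h h' P T hT')
  rw [Preadditive.sum_comp, Preadditive.comp_sum]
  refine (Finset.sum_bij (fun g _ => pp g.1 g.2) m1 m2 m3 fun g hg => ?_).symm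
  rw [Linear.smul_comp, Linear.comp_smul, sq₃ hI hj hT (mem_yS.1 (Finset.mem_product.1 hg).1)
    (mem_yS.1 (Finset.mem_product.1 hg).2)]
  congr 1
  simp only [yR, hc, eps_pp, Nat.cast_mul, mul_inv]
  ring

end

theorem ha_simple [CharZero F] (hχ : χ.Gen n) (a b : Fin w) (h : (b : ℕ) = a + 1) :
    Ha χ n w ((Finset.Ioo 0 w).erase b) (Equiv.swap a b) := by
  induction w using Nat.strong_induction_on with
  | _ w ih =>
  have hb := b.2
  by_cases h1 : (b : ℕ) + 1 < w
  · obtain ⟨j, rfl⟩ : ∃ j, w = j + 1 := ⟨w - 1, by omega⟩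
    have e : lowI j ((Finset.Ioo 0 (j + 1)).erase b) = (Finset.Ioo 0 j).erase b := by
      ext i
      simp only [mem_lowI, Finset.mem_erase, Finset.mem_Ioo]
      omega
    refine ha_left (j := j) (l := 1) (a := ⟨a, by omega⟩) (b := ⟨b, by omega⟩) hχ
      (Finset.erase_subset _ _) (by simp only [Finset.mem_erase, Finset.mem_Ioo]; omega)
      (Fin.ne_of_val_ne (by simp only; omega)) ?_ ?_ <;> rw [e]
    · exact swap_mem_young h (Finset.notMem_erase _ _)
    · exact ih j j.lt_succ_self ⟨a, by omega⟩ ⟨b, by omega⟩ h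
  by_cases h2 : 2 < w
  · obtain ⟨l, rfl⟩ : ∃ l, w = 1 + l := ⟨w - 1, by omega⟩
    obtain ⟨a', rfl⟩ : ∃ a' : Fin l, a = Fin.natAdd 1 a' :=
      ⟨⟨a - 1, by omega⟩, Fin.ext (by simp only [Fin.val_natAdd]; omega)⟩
    obtain ⟨b', rfl⟩ : ∃ b' : Fin l, b = Fin.natAdd 1 b' :=
      ⟨⟨b - 1, by omega⟩, Fin.ext (by simp only [Fin.val_natAdd]; omega)⟩
    simp only [Fin.val_natAdd] at h h1 hb ⊢
    have e : uppI 1 ((Finset.Ioo 0 (1 + l)).erase (1 + b')) = (Finset.Ioo 0 l).erase b' := by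
      ext i
      simp only [mem_uppI, Finset.mem_erase, Finset.mem_Ioo]
      omega
    refine ha_right (j := 1) hχ (Finset.erase_subset _ _)
      (by simp only [Finset.mem_erase, Finset.mem_Ioo]; omega)
      (Fin.ne_of_val_ne (by omega)) ?_ ?_ <;> rw [e]
    · exact swap_mem_young (by omega) (Finset.notMem_erase _ _)
    · exact ih l (by omega) _ _ (by omega)
  obtain rfl : w = 2 := by omega
  obtain rfl : a = 0 := Fin.ext (by simp only [Fin.val_zero]; omega)
  obtain rfl : b = 1 := Fin.ext (by simp only [Fin.val_one]; omega)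
  rw [show (Finset.Ioo 0 2).erase ((1 : Fin 2) : ℕ) = ∅ by decide]
  exact ha_two hχ

theorem ha [CharZero F] (hχ : χ.Gen n) (hI : I ⊆ Finset.Ioo 0 w) :
    ∀ σ ∈ Young w I, Ha χ n w I σ := by
  refine young_induction (p := fun σ => Ha χ n w I σ) (fun P T _ => ?_)
    fun a b σ h hb hσ ih P T hT => ?_
  · rw [ov_pm_one, map_one, one_smul, sub_self]
    exact .of_null .zero
  · have h1 := ha_mono hχ (Finset.subset_erase.2 ⟨hI, hb⟩) (Finset.erase_subset _ _)
      (ha_simple hχ a b h) P T hT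
    have h2 := (h1.precomp (ov χ _ _ T (pm σ))).add ((ih P T hT).smul (eps F n w (Equiv.swap a b)))
    rw [ov_pm_mul hT (swap_mem_young h hb) hσ, map_mul]
    convert h2 using 1
    rw [Preadditive.comp_sub, Linear.comp_smul, Category.comp_id, smul_sub, smul_smul,
      sub_add_sub_cancel]

theorem quo_gen [CharZero F] (hχ : χ.Gen n) (h0 : 0 < j) (hj : j < w)
    (H : Hb χ n w {j}) {s : ∀ ⦃K⦄, P.X K → K} (hs : P.RegF s) (hT : T.Dep {w})
    (h : ∀ ⦃K : Fld k⦄ (c : ℕ → K[X]) (p : P.X K), (c w).Monic → (c w).natDegree = w →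
      (c w).coeff 0 ≠ 0 → P.L p → T.T c p → (c w).rootMultiplicity (s p) = j) :
    Quo (ov χ (Zv k n w (Finset.Ioo 0 w)) (Av k n w) T fun _ x => jmap n w x)
      (ov χ (Zv k n w (Finset.Ioo 0 w)) (Zv k n w ∅) T fun _ x => forget w ∅ x)
      (eI χ n w ∅ T) := by
  classical
  have hI : ({j} : Finset ℕ) ⊆ Finset.Ioo 0 w := by simp [h0, hj]
  have d₀ : T.Dep (JI w ∅) := hT.mono fun _ hm => .inr hm
  have d₁ : T.Dep (JI w {j}) := hT.mono fun _ hm => .inr hm
  have d' : (gen j T hs).Dep (JI w {j}) := fun _ c c' p e t =>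
    ⟨d₁ c c' p e t.1, e j (.inl (Finset.mem_singleton_self j)) ▸ t.2⟩
  have R₀ := isRoof (k := k) (w := w) hχ (Finset.empty_subset _)
  have R₁ := isRoof (k := k) hχ hI
  have f₀ := pmap_forget (k := k) (n := n) (w := w) (Finset.empty_subset {j})
  have mult ⦃K : Fld k⦄ (x : ℕ → Sp K) (p : P.X K) (a : Rel n w (x w)) (b : P.L p)
      (t : T.T (fun m => chi n (x m)) p) : (chi n (x w)).rootMultiplicity (s p) = j :=
    h _ p (chi_monic _) (a.stab.natDegree_chi.trans a.finrank_eq) (chi_coeff_zero _) b t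
  have multA ⦃K : Fld k⦄ (x : ((Av k n w).over T).X K) (a : ((Av k n w).over T).L x) :
      (chiA x.1 w).rootMultiplicity (s x.2) = j :=
    have := chiA_good fun b i => ((a.1.1 b).2 i).1
    h _ x.2 this.1 this.2.1 this.2.2 a.1.2 a.2
  have lv ⦃K : Fld k⦄ (x : ((Zv k n w {j}).over T).X K) (a : ((Zv k n w {j}).over T).L x) :
      ((Zv k n w ∅).over T).L (forget w ∅ x.1, x.2) :=
    have := a.1.1.forget_flag (Finset.empty_subset _)
    ⟨⟨this, a.1.2⟩, d₀ _ _ _ (fun m hm => (f₀.c x.1 a.1.1 this m hm).symm) a.2⟩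
  have hb : IsMap ((Zv k n w {j}).over (gen j T hs)) ((Zv k n w ∅).over T)
      fun _ x => (forget w ∅ x.1, x.2) :=
    (isMap_gen j T hs _).comp (f₀.over d₀) fun _ _ a _ => ⟨a.1, a.2.1⟩
  have eb : (isMap_gen j T hs _).hom χ ≫ ov χ (Zv k n w {j}) (Zv k n w ∅) T
      (fun _ x => forget w ∅ x) = hb.hom χ := by
    rw [ov, (f₀.over d₀).hm_eq]
    exact IsMap.hom_comp _ _ _ (fun _ _ a _ => ⟨a.1, a.2.1⟩) fun _ _ _ _ => rfl
  have bij : Bij (hb.hom χ) := by
    refine hb.bij (fun _ x a => lv x ⟨a.1, a.2.1⟩) (fun K x x' a a' e => ?_) fun K y a => ?_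
    · have e1 : x.1 w = x'.1 w := by simpa [forget] using congrFun (congrArg Prod.fst e) w
      have e2 : x.2 = x'.2 := (congrArg Prod.snd e :)
      refine Prod.ext (funext fun i => ?_) e2
      by_cases h1 : i = j
      · subst h1
        exact (a.1.1.rel.stab.existsUnique_gen _ (mult _ _ a.1.1.rel a.1.2 a.2.1)).unique
          ⟨a.1.1.le_top i (by simp), a.1.1.stab i (by simp), a.1.1.rank i (by simp), a.2.2⟩
          ⟨e1 ▸ a'.1.1.le_top i (by simp), a'.1.1.stab i (by simp), a'.1.1.rank i (by simp),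
            e2 ▸ a'.2.2⟩
      · by_cases h2 : i = w
        · rw [h2, e1]
        · rw [a.1.1.bot i (by simpa using h1) h2, a'.1.1.bot i (by simpa using h1) h2]
    · obtain ⟨W, ⟨h1, h2, h3, h4⟩, -⟩ :=
        a.1.1.rel.stab.existsUnique_gen _ (mult _ _ a.1.1.rel a.1.2 a.2)
      have e1 : update y.1 j W w = y.1 w := update_of_ne hj.ne' _ _
      have e2 : update y.1 j W j = W := update_self _ _ _
      have fl : Flag n w {j} (update y.1 j W) := by
        refine ⟨e1.symm ▸ a.1.1.trel, ?_, ?_, ?_, by simp, fun i hi hi' => ?_⟩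
        iterate 3 intro i hi; rw [Finset.mem_singleton.1 hi, e2]; rotate_left
        · rw [update_of_ne (by simpa using hi), a.1.1.bot i (by simp) hi']
        exacts [h2, h3, e1.symm ▸ h1]
      refine ⟨(update y.1 j W, y.2), ⟨⟨fl, a.1.2⟩, hT _ _ _ (fun m hm => ?_) a.2,
        (congrArg (chi n) e2).trans h4⟩, Prod.ext (funext fun i => ?_) rfl⟩
      · rw [Set.mem_singleton_iff.1 hm]
        exact congrArg (chi n) e1.symm
      · simp only [forget, Finset.notMem_empty, false_or]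
        split_ifs with hi
        · rw [hi, e1]
        · exact (a.1.1.bot i (by simp) hi).symm
  have res : IsMap ((Av k n w).over T) ((Av k n w).over (gen j T hs)) fun _ x => x := by
    refine .of_open (fun K K' φ x y a b r c => ⟨a.1, a.2, (chiA_iff hj.le).2 fun i =>
      (iff_of_ge hj.le (multA x a) (fun i e => ?_) i).1⟩)
      (.of_proper ⟨fun _ _ a => a.2, fun _ _ _ _ _ _ _ r => r⟩ (fun _ _ _ => rfl)
        fun _ _ _ _ z _ b r => ⟨z, ⟨⟨b.1, b.2.1⟩, b⟩, r⟩)
    exact (iff_of_le hj.le (multA y b) ((chiA_iff hj.le).1 c.2.2) i).2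
      ((Place.prod fun l _ => r.1 i l).eq_of (hs φ _ _ a.1.2 b.1.2 r.2) e)
  have top (σ : Equiv.Perm (Fin w)) : σ ∈ Young w ∅ := young_empty w ▸ Subgroup.mem_top _
  have hY : (Nat.card (Young w {j}) : F) ≠ 0 := Nat.cast_ne_zero.2 Nat.card_pos.ne'
  refine Quo.induce (H P _ d') (R₀.uiso P T d₀) (R₁.uiso P _ d') (gen_nat hs R₁.pj d₁ d')
    (b := hb.hom χ) ?_ bij.uiso (kills_eI (ha hχ (Finset.empty_subset _)) d₀)
    (π := (Nat.card (Young w {j}) : F)⁻¹ • ∑ σ, eps F n w σ •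
      ov χ (Av k n w) (Av k n w) T (pm σ) ≫ res.hom χ) ?_ ?_
  · rw [← eb, ← Category.assoc, ← gen_nat hs R₁.pq d₁ d', Category.assoc,
      (R₁.pq.mono (JI_mono (Finset.empty_subset _))).ov_comp f₀ d₀ R₀.pq
        (fun _ x a _ => R₁.live x a) fun _ _ _ _ => forget_forget (Finset.empty_subset _)]
  · rw [Preadditive.sum_comp, Finset.sum_congr rfl (g := fun _ => (Nat.card (Young w {j}) : F)⁻¹ •
      (isMap_gen j T hs _).hom χ ≫ eI χ n w ∅ T) fun σ hσ => ?_, Finset.sum_const,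
      ← Nat.cast_smul_eq_nsmul F, smul_smul, yS, ← Fintype.card_subtype,
      ← Nat.card_eq_fintype_card, mul_inv_cancel₀ hY, one_smul]
    rw [Linear.smul_comp, ← Category.assoc,
      ← gen_nat hs (pend_pm (Finset.mem_filter.1 hσ).2).toPMap d₁ d', Category.assoc,
      pm_eI d₀ (top σ), Linear.comp_smul, smul_smul, yR, mul_assoc, eps_mul_self, mul_one]
  · have hE (σ : Equiv.Perm (Fin w)) := pm_eI (χ := χ) (n := n) d₀ (top σ)
    generalize eI χ n w ∅ T = E at hE ⊢
    refine Pt.hom_ext fun K x a => ?_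
    have e (σ : Equiv.Perm (Fin w)) : ((eps F n w σ • ov χ (Av k n w) (Av k n w) T (pm σ) ≫
        res.hom χ) ≫ (isMap_gen j T hs _).hom χ ≫ E).1 K (cl F _ x) =
        if chiA (pm σ x.1) j = (Polynomial.X - C (s x.2)) ^ j then E.1 K (cl F _ x) else 0 := by
      have h1 := pend_pm (k := k) (n := n) (top σ)
      have h2 : ((Av k n w).over T).L (pm σ x.1, x.2) := ⟨⟨h1.live x.1 a.1.1, a.1.2⟩, d₀ _ _ _
        (fun m hm => (h1.c x.1 a.1.1 (h1.live x.1 a.1.1) m hm).symm) a.2⟩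
      rw [Linear.smul_comp, Ob.smul_app, LinearMap.smul_apply, Ob.comp_apply, Ob.comp_apply,
        Ob.comp_apply, h1.toPMap.ov_cl d₀ a, res.hom_cl h2]
      split_ifs with h3
      · rw [(isMap_gen j T hs (Av k n w)).hom_cl (x := (pm σ x.1, x.2)) ⟨h2.1, h2.2, h3⟩,
          ← h1.toPMap.ov_cl d₀ a, ← Ob.comp_apply _ E, hE, Ob.smul_app, LinearMap.smul_apply,
          smul_smul, eps_mul_self, one_smul]
      · have h4 : ¬ ((Av k n w).over (gen j T hs)).L (pm σ x.1, x.2) := fun h4 => h3 h4.2.2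
        rw [cl_dead h4, LinearMap.map_zero, LinearMap.map_zero, smul_zero]
    rw [Linear.smul_comp, Preadditive.sum_comp, Ob.smul_app, Ob.sum_app, LinearMap.smul_apply,
      LinearMap.sum_apply, Finset.sum_congr rfl fun σ _ => e σ, ← Finset.sum_filter,
      Finset.sum_const, card_sort hj.le (multA x a), ← Nat.cast_smul_eq_nsmul F, smul_smul,
      inv_mul_cancel₀ hY, one_smul]

theorem hb_full (hχ : χ.Gen n) : Hb χ n w (Finset.Ioo 0 w) := by
  intro P T hT
  have e : yS w (Finset.Ioo 0 w) = {1} := by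
    ext σ
    simp [yS, young_full]
  rw [e, Finset.sum_singleton, yR, young_full, Subgroup.card_bot, Nat.cast_one, inv_one, map_one,
    one_mul, one_smul, ov_pm_one,
    ov_id (V := Zv k n w (Finset.Ioo 0 w)) fun _ _ hx => Flag.forget_self hx]
  exact .of_uiso ((isRoof hχ (Finset.Subset.refl _)).uiso P T hT) .id

/-- The roof from the operators to the spaces of solutions. -/
def sys [CharZero F] (hχ : χ.Gen n) : Sys χ w where
  A := Av k n w
  Z := Zv k n w (Finset.Ioo 0 w)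
  B := Zv k n w ∅
  j _ x := jmap n w x
  q _ x := forget w ∅ x
  G := Equiv.Perm (Fin w)
  s := yS w ∅
  r := yR F n w ∅
  a := pm
  roof := HaAux.JI_empty (w := w) ▸ isRoof hχ (Finset.empty_subset _)
  pa _ _ := HaAux.JI_empty (w := w) ▸ pend_pm (young_empty w ▸ Subgroup.mem_top _)
  gA _ _ h := good_chiA fun a i => ((h a).2 i).1
  gZ _ _ h := good_chi h
  gB _ _ h := good_chi h
  kills _ _ hT := kills_eI (ha hχ (Finset.empty_subset _)) (HaAux.JI_empty (w := w) ▸ hT)
  idem _ _ hT := eI_idem (HaAux.JI_empty (w := w) ▸ hT)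

theorem hb_empty [CharZero F] (hχ : χ.Gen n) (h2 : 2 ≤ w)
    (H : ∀ j, 0 < j → j < w → Hb χ n w {j}) : Hb χ n w ∅ := fun _ _ hT =>
  Sys.At.of_norm (D := sys hχ) (by omega)
    (fun _ _ _ j hs h0 hj d h => quo_gen hχ h0 hj (H j h0 hj) hs d
      fun _ c p a b e => h c p ⟨a, b, e⟩)
    (fun _ _ h => .of_uzero (null_eI hχ h h2) (uzero_norm hχ h h2))
    (HaAux.JI_empty (w := w) ▸ hT)

theorem hb [CharZero F] (hχ : χ.Gen n) (hI : I ⊆ Finset.Ioo 0 w) :
    Hb χ n w I := by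
  induction w using Nat.strong_induction_on generalizing I with
  | _ w ih =>
  have key (I : Finset ℕ) (hI : I ⊆ Finset.Ioo 0 w) (j : ℕ) (hj : j ∈ I) : Hb χ n w I := by
    obtain ⟨h0, h1⟩ := Finset.mem_Ioo.1 (hI hj)
    obtain ⟨l, rfl⟩ : ∃ l, w = j + l := ⟨w - j, by omega⟩
    exact hb_prod hχ hI hj (ih j h1 (lowI_subset hI))
      (ih l (by omega) (uppI_subset hI))
  rcases I.eq_empty_or_nonempty with rfl | ⟨j, hj⟩
  · by_cases h2 : 2 ≤ w
    · exact hb_empty hχ h2 fun j h0 hj => key _ (Finset.singleton_subset_iff.2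
        (Finset.mem_Ioo.2 ⟨h0, hj⟩)) j (Finset.mem_singleton_self j)
    · have e : Finset.Ioo 0 w = ∅ := Finset.eq_empty_of_forall_notMem fun i hi => by
        have := Finset.mem_Ioo.1 hi
        omega
      have h := hb_full (n := n) (w := w) hχ
      generalize hJ : (∅ : Finset ℕ) = J
      obtain rfl : J = Finset.Ioo 0 w := hJ.symm.trans e.symm
      exact h
  · exact key I hI j hj

end

end Pool.Agent.Lib.MP_fc2ced_ag.T.W
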