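import Pool.Agent.Lib.MP_fc2ced_ag.W.Tot

/-! Decompositions of pull-backs, and rank one sheaves on open parts of the line. -/

open CategoryTheory Function

namespace Pool.Agent.Lib.MP_fc2ced_ag.T

open K

noncomputable section

variable {k : Type} [Field k] {F : Type} [Field F] {χ : Chr k F}

open Ob MP_fc2ced_ag.T.Pt

/-- Varieties with at most one point. -/
theorem sf_sub {S : Pt k} (h : ∀ ⦃K⦄ (x y : S.X K), S.L x → S.L y → x = y) : SF (S.E χ) :=
  sf_of_acts (Acts.of_fix fun _ _ a => funext fun i => h _ _ (a _) (a i)) fun _ _ => rfl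

theorem sf_prod {S S' : Pt k} (h : SF (S.E χ)) (h' : SF (S'.E χ)) : SF ((S.prod S').E χ) :=
  .of_eqv ⟨_, bij_ten⟩ (SF.ten (con _) (con _) h h')

theorem closed_eq (a : k) : (line k).Closed fun K s => s = algebraMap k K a :=
  fun _ _ φ _ _ _ _ r e => r.eq_of (φ.alg a) e

theorem zpow_sum {K ρ : Type} [Field K] {a : K} (ha : a ≠ 0) (s : Finset ρ) (e : ρ → ℤ) :
    a ^ (∑ j ∈ s, e j) = ∏ j ∈ s, a ^ e j := by
  classical
  induction s using Finset.induction_on with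
  | empty => simp
  | insert j s h ih => rw [Finset.sum_insert h, Finset.prod_insert h, zpow_add₀ ha, ih]

theorem Chr.neg_ne {t : ℤ} (h : χ.ψ t ≠ 1) : χ.ψ (-t : ℤ) ≠ 1 := by
  rw [Int.cast_neg, AddChar.map_neg_eq_inv]
  exact inv_ne_one.2 h

namespace Cv

variable {D : Cv k} {S : Pt k} {l : ∀ ⦃K⦄, S.X K → K} {hl : S.RegF l} {U : (line k).Cond}

theorem closed_pb (hU : (line k).Closed U) : (D.pb S l hl).Closed fun _ x => U (l x) :=
  fun _ _ φ x y a b r => hU φ _ _ trivial trivial (hl φ x y a.1 b.1 r)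

theorem eqv_sub (hU : (line k).Conv U) (h : (D.pb S l hl).Conv fun _ x => U (l x)) :
    Eqv (((D.pb S l hl).restr _ h).E χ) (((D.sub U hU).pb S l hl).E χ) :=
  eqv_of_inv (e := fun _ x => x) (g := fun _ x => x)
    ⟨fun _ _ a => ⟨a.1.1, a.1.2, a.2⟩, fun _ _ _ _ _ _ _ r => r⟩
    ⟨fun _ _ a => ⟨⟨a.1, a.2.1⟩, a.2.2⟩, fun _ _ _ _ _ _ _ r => r⟩
    (fun _ _ _ => rfl) (fun _ _ _ => rfl) fun _ _ _ => rfl

/-- A fibre is the product of the fibre of the function with a point. -/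
theorem sf_fib (a : k) (h : SF ((S.restr _ (hl.eq (regF_const a)).conv).E χ)) :
    SF (((D.sub _ (closed_eq a).conv).pb S l hl).E χ) :=
  .of_eqv (eqv_of_inv (S' := (S.restr _ (hl.eq (regF_const a)).conv).prod
      ((D.sub _ (closed_eq a).conv).pb (line k) (fun _ x => x) fun _ _ _ _ _ _ _ r => r))
    (e := fun _ x => (x, l x)) (g := fun _ x => x.1)
    ⟨fun _ _ a => ⟨⟨a.1, a.2.2⟩, trivial, a.2⟩, fun _ _ φ x y a b r => ⟨r, hl φ x y a.1 b.1 r⟩⟩
    ⟨fun _ _ a => ⟨a.1.1, (a.1.2.trans a.2.2.2.symm).symm ▸ a.2.2.1, a.1.2⟩,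
      fun _ _ _ _ _ _ _ r => r.1⟩
    (fun _ x _ => congrArg (S.f x * ·) (one_mul _)) (fun _ _ _ => rfl)
    fun _ _ a => Prod.ext rfl (a.1.2.trans a.2.2.2.symm))
    (sf_prod h (sf_sub fun _ _ _ a b => a.2.2.trans b.2.2.symm))

variable [CharZero F]

theorem sf_pb₂ (hU : (line k).Closed U) (h₁ : SF (((D.sub U hU.conv).pb S l hl).E χ))
    (h₃ : SF (((D.sub _ hU.not.conv).pb S l hl).E χ)) : SF ((D.pb S l hl).E χ) :=
  SF.ses₂ (ses_closed (closed_pb hU)) (con _) (con _) (.of_eqv (eqv_sub _ _) h₁)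
    (.of_eqv (eqv_sub hU.not.conv _) h₃)

theorem sf_pb₃ (χ₁ : Chr k F) (h₁ : χ₁.ψ (1 : ℤ) ≠ 1) (hU : (line k).Closed U)
    (h : SF (((D.sub U hU.conv).pb S l hl).E χ)) (h₂ : SF ((D.pb S l hl).E χ)) :
    SF (((D.sub _ hU.not.conv).pb S l hl).E χ) :=
  .of_eqv (eqv_sub hU.not.conv _).symm
    (sf_ses₃ χ₁ h₁ (ses_closed (closed_pb hU)) (.of_eqv (eqv_sub _ _) h) h₂)

/-- Finitely many fibres. -/
theorem sf_fin (R : Finset k) (h : ∀ a ∈ R, SF ((S.restr _ (hl.eq (regF_const a)).conv).E χ))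
    (hR : ∀ ⦃K : Fld k⦄ (s : K), D.T s → ∃ a ∈ R, s = algebraMap k K a) :
    SF ((D.pb S l hl).E χ) := by
  classical
  induction R using Finset.induction_on generalizing D with
  | empty => exact .of_uzero (uzero_empty fun _ _ a => by simpa using hR _ a.2)
  | insert a R _ ih =>
    refine sf_pb₂ (closed_eq a) (sf_fib a (h a (by simp)))
      (ih (fun b hb => h b (by simp [hb])) fun K s t => ?_)
    obtain ⟨b, hb, e⟩ := hR s t.1
    exact ⟨b, (Finset.mem_insert.1 hb).resolve_left fun e' => t.2 (e' ▸ e), e⟩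

theorem sf_cur_aux (χ₁ : Chr k F) (h₁ : χ₁.ψ (1 : ℤ) ≠ 1) (e : k → ℤ) {c : k} (hc : c ≠ 0)
    (V : Finset k) : SF ((op V id e hc).cur.E χ) := by
  classical
  induction V using Finset.strongInduction with
  | H V ih =>
  by_cases h : ∃ v ∈ V, χ.ψ (e v) = 1
  · obtain ⟨v, hv, h⟩ := h
    refine .of_eqv (Eqv.symm (eqv_twist h
      (S := ((op (V.erase v) id e hc).sub _ (closed_eq v).not.conv).cur) (e := fun _ x => x)
      (g := fun _ x => x) ⟨fun _ x a => ⟨a.1, fun u hu => ?_⟩, fun _ _ _ _ _ _ _ r => r⟩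
      ⟨fun _ x a => ⟨a.1, fun u hu => a.2 u (Finset.mem_of_mem_erase hu), a.2 v hv⟩,
        fun _ _ _ _ _ _ _ r => r⟩ (w := fun K x => algebraMap k K v - x)
      (fun _ _ φ _ _ _ _ r => (φ.alg v).sub r) (fun _ _ a => sub_ne_zero.2 (Ne.symm a.2.2))
      (fun K x _ => ?_) (fun _ _ _ => rfl) fun _ _ _ => rfl))
      (sf_pb₃ χ₁ h₁ (closed_eq v) (sf_sub fun _ _ _ a b => a.2.2.trans b.2.2.symm)
        (ih _ (Finset.erase_ssubset hv)))
    · by_cases e : u = v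
      exacts [e ▸ a.2.2, a.2.1 u (Finset.mem_erase.2 ⟨e, hu⟩)]
    · change 1 * (_ * ∏ u ∈ V, _) = 1 * (_ * ∏ u ∈ V.erase v, _) * _
      rw [← Finset.prod_erase_mul V _ hv, ← mul_assoc, ← mul_assoc, ← mul_assoc]
      rfl
  simp only [not_exists, not_and] at h
  by_cases h0 : ∃ v ∈ V, v ≠ 0
  · obtain ⟨v, hv, h0⟩ := h0
    let _ : Ex 1 := ⟨fun _ => -e v, fun _ => rfl⟩
    have v0 (K : Fld k) : algebraMap k K v ≠ 0 := (map_ne_zero _).2 h0
    refine .of_eqv (eqv_of_inv (S' := (op (V.erase v) (fun u => u / v) e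
        (mul_ne_zero hc (zpow_ne_zero (∑ u ∈ V, e u) h0))).tw (Ex.b (n := 1)))
      (e := fun K x _ => x / algebraMap k K v) (g := fun K x => algebraMap k K v * x 0)
      ⟨fun K x a => ⟨⟨fun _ => trivial, fun _ => ⟨div_ne_zero a.1.2 (v0 K), fun e =>
          a.2 v hv ((div_eq_one_iff_eq (v0 K)).1 e)⟩⟩, fun u hu e =>
          a.2 u (Finset.mem_of_mem_erase hu) ?_⟩,
        fun _ K' φ _ _ _ _ r _ => r.div (φ.alg v) (v0 K')⟩
      ⟨fun K x a => ⟨⟨trivial, mul_ne_zero (v0 K) (a.1.2 0).1⟩, fun u hu e => ?_⟩,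
        fun _ _ φ _ _ _ _ r => (φ.alg v).mul (r 0)⟩
      (fun K x a => ?_) (fun K x _ => mul_div_cancel₀ _ (v0 K)) fun K x _ => funext fun i => ?_)
      (W.sf_gen _ _ _ _ (fun _ => Chr.neg_ne (h v hv)) fun _ u hu e =>
        (Finset.mem_erase.1 hu).1 ((div_eq_one_iff_eq h0).1 e))
    · simpa [div_left_inj' (v0 K)] using e
    · by_cases e' : u = v
      · exact (a.1.2 0).2 (mul_left_cancel₀ (v0 K) (e.trans (by rw [e', mul_one]; rfl)))
      · refine a.2 u (Finset.mem_erase.2 ⟨e', hu⟩) ?_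
        simp only [Fin.prod_univ_one, map_div₀]
        exact eq_div_of_mul_eq (v0 K) ((mul_comm _ _).trans e)
    · change (∏ _ : Fin 1, (1 - x / algebraMap k K v) ^ (- -e v)) *
        (algebraMap k K (c * v ^ ∑ u ∈ V, e u) * ∏ u ∈ V.erase v,
          (algebraMap k K (u / v) - ∏ _ : Fin 1, x / algebraMap k K v) ^ e u) =
        1 * (algebraMap k K c * ∏ u ∈ V, (algebraMap k K u - x) ^ e u)
      have e1 (u : k) : (algebraMap k K u - x) ^ e u =
          algebraMap k K v ^ e u * (algebraMap k K (u / v) - x / algebraMap k K v) ^ e u := by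
        rw [← mul_zpow, map_div₀, ← sub_div, mul_div_cancel₀ _ (v0 K)]
      simp only [Fin.prod_univ_one, neg_neg, e1, Finset.prod_mul_distrib, map_mul, map_zpow₀,
        zpow_sum (v0 K)]
      rw [← Finset.mul_prod_erase V (fun u => (algebraMap k K (u / v) - _) ^ e u) hv, div_self h0,
        map_one]
      ring
    · rw [Subsingleton.elim i 0, mul_div_cancel_left₀ _ (v0 K)]
  simp only [not_exists, not_and, not_not] at h0
  rcases V.eq_empty_or_nonempty with rfl | ⟨v, hv⟩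
  · exact .of_eqv (eqv_of_inv (S' := (pun k 0).prod ((unit k).withF (fun K _ => algebraMap k K c)
        (regF_const c) fun _ _ _ => (map_ne_zero _).2 hc))
      (e := fun _ x => (1 + x, ())) (g := fun _ x => x.1 - 1)
      ⟨fun _ x a => ⟨⟨trivial, fun e => a.1.2 (by simpa using e)⟩, trivial⟩,
        fun _ _ φ _ _ _ _ r => ⟨φ.one.add r, trivial⟩⟩
      ⟨fun _ x a => ⟨⟨trivial, sub_ne_zero.2 a.1.2⟩, by simp⟩,
        fun _ _ φ _ _ _ _ r => r.1.sub φ.one⟩
      (fun _ _ _ => by simp) (fun _ _ _ => by simp) fun _ _ _ => by simp)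
      (sf_prod (sf_pun χ₁ h₁ χ 0) (sf_sub fun _ _ _ _ _ => rfl))
  · obtain rfl := h0 v hv
    obtain rfl : V = {0} := Finset.eq_singleton_iff_unique_mem.2 ⟨hv, h0⟩
    refine .of_uzero (Flow.uzero (τ := fun _ r x => x * r) (h 0 hv)
      ⟨fun _ _ _ h a => ⟨⟨trivial, mul_ne_zero a.1.2 h⟩, by simpa using ⟨a.1.2, h⟩⟩,
        fun _ x _ => mul_one x, fun _ _ x h _ => mul_inv_cancel_right₀ h x,
        fun _ r x _ _ => ?_, fun _ _ _ _ _ _ _ h _ _ _ h' => h'.mul h⟩)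
    simp only [Finset.prod_singleton, id_eq, map_zero, zero_sub, ← neg_mul, mul_zpow, mul_assoc]

/-- Rank one sheaves on open parts of the multiplicative group. -/
theorem sf_cur (χ₁ : Chr k F) (h₁ : χ₁.ψ (1 : ℤ) ≠ 1) {ρ : Type} (s : Finset ρ) (y : ρ → k)
    (e : ρ → ℤ) {c : k} (hc : c ≠ 0) : SF ((op s y e hc).cur.E χ) := by
  classical
  refine .of_eqv (pb_congr fun K x _ => ⟨by simp, fun h => congrArg (_ * ·) ?_⟩)
    (sf_cur_aux χ₁ h₁ (fun v => ∑ j ∈ s with y j = v, e j) hc (s.image y))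
  refine Finset.prod_image' _ fun i hi => (zpow_sum (sub_ne_zero.2 (h i hi).symm) _ _).trans
    (Finset.prod_congr rfl fun j hj => ?_)
  rw [(Finset.mem_filter.1 hj).2]

end Cv

end

end Pool.Agent.Lib.MP_fc2ced_ag.T
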