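import Pool.Agent.Lib.MP_fc2ced_ag.K.SeqB

/-! A change of one row of a periodic recurrence that keeps values of the characteristic
polynomial. -/

open Function Polynomial Matrix

namespace Pool.Agent.Lib.MP_fc2ced_ag.T.W

open K

noncomputable section

variable {K : Type} [Field K] {n w : ℕ} {g g' : ℤ → ℕ → K}

/-- The pairing of a polynomial with a sequence. -/
def ev (z : ℕ → K) : K[X] →ₗ[K] K := lsum fun l => LinearMap.mulRight K (z l)

theorem ev_monomial (z : ℕ → K) (l : ℕ) (c : K) : ev z (monomial l c) = c * z l := by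
  simp [ev]

theorem ev_range (z : ℕ → K) {p : K[X]} {N : ℕ} (h : p.natDegree < N) :
    ev z p = ∑ l ∈ Finset.range N, p.coeff l * z l := by
  rw [ev, lsum_apply, sum_over_range' _ (by simp) _ h]
  rfl

theorem ev_X_pow_mul (z : ℕ → K) (m : ℕ) (p : K[X]) :
    ev z (X ^ m * p) = ev (fun l => z (l + m)) p := by
  induction p using Polynomial.induction_on' with
  | add p q hp hq => rw [mul_add, map_add, map_add, hp, hq]
  | monomial l c => rw [X_pow_mul_monomial, ev_monomial, ev_monomial]

/-- A row of the recurrence as a polynomial. -/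
def row (w : ℕ) (g : ℤ → ℕ → K) (i : ℤ) : K[X] := ∑ l ∈ Finset.range (w + 1), monomial l (g i l)

theorem ev_row {z : Sq K} (hz : z ∈ Sol w g) : ev (fun l => z l) (X * row w g 1) = 0 := by
  rw [← pow_one X, ev_X_pow_mul, row, map_sum, ← mem_Sol.1 hz 1, op_apply]
  refine Finset.sum_congr rfl fun l _ => ?_
  rw [ev_monomial, Nat.cast_add, Nat.cast_one, add_comm]

theorem pmat_mod (h : Band n w g) {δ : K[X]} (h0 : ∀ l, g' 0 l = g 0 l + δ.coeff l)
    (h1 : ∀ i : ℕ, 0 < i → i < n → g' i = g i) {z : Sq K} (hz : z ∈ Sol w g) (m : ℕ)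
    (hm : m < n) : (pmat w g' (m + 1)).mulVec (fun b => z ((m + 1 : ℕ) + (b : ℕ))) =
      fun a : Fin w => z (a : ℕ) -
        if (a : ℕ) = 0 then ∑ b : Fin w, δ.coeff (b + 1) * z ((b + 1 : ℕ) : ℕ) else 0 := by
  induction m with
  | zero =>
    have h2 := h.cmat_mulVec hz 0
    funext a
    have h3 := congrFun h2 a
    simp only [pmat, Matrix.one_mul, Matrix.mulVec, dotProduct, cmat, Matrix.of_apply,
      Nat.cast_zero, h0, zero_add, Nat.cast_one] at h3 ⊢
    rw [← h3]
    split_ifs
    · rw [← Finset.sum_sub_distrib]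
      refine Finset.sum_congr rfl fun b _ => ?_
      rw [Nat.cast_add, Nat.cast_one, add_comm (1 : ℤ)]
      ring
    · rw [sub_zero]
  | succ m ih =>
    have e : cmat w g' ((m + 1 : ℕ) : ℤ) = cmat w g ((m + 1 : ℕ) : ℤ) := by
      rw [cmat, cmat, h1 _ m.succ_pos hm]
    rw [pmat, ← Matrix.mulVec_mulVec, e, Nat.cast_succ (m + 1), h.cmat_mulVec hz, ih (by omega)]

/-- The value at `y` of the characteristic polynomial does not change. -/
theorem chi_eval (hn : 0 < n) (h : Band n w g) (h' : Band n w g') {δ p : K[X]} {y κ : K}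
    (h0 : ∀ l, g' 0 l = g 0 l + δ.coeff l) (h1 : ∀ i : ℕ, 0 < i → i < n → g' i = g i)
    (d0 : δ.coeff 0 = 0) (dw : δ.natDegree ≤ w) (p0 : p.coeff 0 = 0) (pw : p.natDegree < w)
    (e : δ = C κ * (X * row w g 1) + (C y * X ^ n - 1) * p) :
    (chi n (Sol w g')).eval y = (chi n (Sol w g)).eval y := by
  obtain ⟨m, rfl⟩ : ∃ m, n = m + 1 := ⟨n - 1, by omega⟩
  have key : Matrix.scalar (Fin w) y - pmat w g' (m + 1) =
      (1 + replicateCol Unit (fun a : Fin w => if (a : ℕ) = 0 then (1 : K) else 0) *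
        replicateRow Unit fun b : Fin w => p.coeff b) *
      (Matrix.scalar (Fin w) y - pmat w g (m + 1)) := by
    refine Matrix.ext_iff_mulVec.2 fun v => ?_
    obtain ⟨z, hz, hv⟩ := h.su (fun t => if e : (t - (m + 1 : ℕ)).toNat < w then
      v ⟨_, e⟩ else 0) (m + 1 : ℕ)
    obtain rfl : v = fun b : Fin w => z ((m + 1 : ℕ) + (b : ℕ)) := funext fun b => by
      rw [hv _ (by omega) (by have := b.2; omega), dif_pos (by simp)]
      simp
    have h2 : ∑ b : Fin w, δ.coeff (b + 1) * z ((b + 1 : ℕ) : ℕ) =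
        ∑ b : Fin w, p.coeff b * (y * z ((m + 1 : ℕ) + (b : ℕ)) - z (b : ℕ)) := by
      have h3 := ev_range (fun l => z l) (Nat.lt_succ_of_le dw)
      rw [Finset.sum_range_succ', d0, zero_mul, add_zero, Finset.sum_range] at h3
      rw [← h3, e, sub_mul, one_mul, mul_assoc, ← smul_eq_C_mul, ← smul_eq_C_mul, map_add,
        map_sub, map_smul, map_smul, ev_row hz, smul_zero, zero_add, ev_X_pow_mul,
        ev_range _ pw, ev_range _ pw, smul_eq_mul, Finset.mul_sum, ← Finset.sum_sub_distrib,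
        Finset.sum_range]
      refine Finset.sum_congr rfl fun b _ => ?_
      rw [Nat.cast_add, add_comm ((b : ℕ) : ℤ)]
      ring
    rw [← Matrix.mulVec_mulVec, Matrix.sub_mulVec, Matrix.sub_mulVec,
      pmat_mod h h0 h1 hz m m.lt_succ_self, h.pmat_mulVec hz, h2, Matrix.add_mulVec,
      Matrix.one_mulVec, ← Matrix.mulVec_mulVec]
    funext a
    simp only [Matrix.scalar_apply, Pi.sub_apply, Pi.add_apply, Matrix.mulVec_diagonal]
    simp only [Matrix.mulVec, dotProduct, replicateCol_apply, replicateRow_apply,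
      Finset.univ_unique, Finset.sum_singleton, Pi.sub_apply, Matrix.diagonal_apply, ite_mul,
      zero_mul, Finset.sum_ite_eq, Finset.mem_univ, if_true, one_mul]
    split_ifs <;> ring
  rw [h.chi_pmat, h'.chi_pmat, Matrix.eval_charpoly, Matrix.eval_charpoly, key, Matrix.det_mul,
    det_one_add_replicateCol_mul_replicateRow, dotProduct, Finset.sum_eq_zero, add_zero, one_mul]
  intro a _
  split_ifs with ha
  · rw [ha, p0, zero_mul]
  · rw [mul_zero]

end

end Pool.Agent.Lib.MP_fc2ced_ag.T.W
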