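import Pool.Agent.Lib.MP_fc2ced_ag.W.Red

/-! Hypergeometric families over abelian coverings of the parameter line have Schur-finite motives
with compact support. -/

open CategoryTheory Function

namespace Pool.Agent.Lib.MP_fc2ced_ag.T

open K

noncomputable section

variable {k : Type} [Field k] {F : Type} [Field F] {χ : Chr k F}

open MP_fc2ced_ag.T.Pt

open Polynomial in
theorem exists_fac {p : Polynomial k} (hp : p.Splits) : ∃ (ρ : Type) (_ : Fintype ρ) (y : ρ → k)
    (c : k), p = C c * ∏ j, (C (y j) - Polynomial.X) := by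
  induction hp using Submonoid.closure_induction with
  | mem x hx =>
    obtain ⟨a, rfl⟩ | ⟨a, rfl⟩ := hx
    · exact ⟨Empty, inferInstance, Empty.elim, a, by simp⟩
    · exact ⟨Unit, inferInstance, fun _ => -a, -1, by simp⟩
  | one => exact ⟨Empty, inferInstance, Empty.elim, 1, by simp⟩
  | mul p q _ _ hp hq =>
    obtain ⟨ρ, _, y, c, rfl⟩ := hp
    obtain ⟨ρ', _, y', c', rfl⟩ := hq
    exact ⟨ρ ⊕ ρ', inferInstance, Sum.elim y y', c * c', by
      simp only [Fintype.prod_sum_type, Sum.elim_inl, Sum.elim_inr, C_mul]; ring⟩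

theorem rel_aeval {K K' : Fld k} {φ : Place K K'} {a : K} {b : K'} (h : φ a b) (p : Polynomial k) :
    φ (Polynomial.aeval a p) (Polynomial.aeval b p) := by
  rw [← Polynomial.eval_map_algebraMap, ← Polynomial.eval_map_algebraMap]
  refine Place.PR.eval (fun i => ?_) h
  rw [Polynomial.coeff_map, Polynomial.coeff_map]
  exact φ.alg _

namespace Cv

variable {r : ℕ} (h : Polynomial k) (g : Fin r → Polynomial k)

/-- The zeros of `h` that are not zeros of the `g j`, with a monomial in the `g j`. -/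
@[reducible] def mn (t : Fin r → ℕ) : Cv k where
  T _ s := Polynomial.aeval s h = 0 ∧ ∀ j, Polynomial.aeval s (g j) ≠ 0
  conv := Conv.and (Closed.conv fun _ _ φ _ _ _ _ a e => (rel_aeval a h).eq_of φ.zero e)
    (Open.conv fun _ _ _ _ _ _ _ a e j => (rel_aeval a _).ne_zero (e j))
  g _ s := ∏ j, (Polynomial.aeval s (g j))⁻¹ ^ t j
  reg _ _ _ _ _ _ b a := Place.prod fun j _ => ((rel_aeval a _).inv (b.2.2 j)).pow _
  ne _ _ a := Finset.prod_ne_zero_iff.2 fun j _ => pow_ne_zero _ (inv_ne_zero (a.2 j))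

variable {h g}

theorem sf_mn [CharZero F] (h₁ : χ.ψ (1 : ℤ) ≠ 1) (hh : h.Splits) (hg : ∀ j, (g j).Splits)
    (t : Fin r → ℕ) {α : Type} [Fintype α] (b : α → ZMod χ.N)
    (hb : {v | v ≠ 0 ∧ Odd {i | b i = v}.ncard}.ncard ≤ 2) :
    SF (((mn h g t).tw fun i => ((b i).val : ℤ)).E χ) := by
  classical
  rcases eq_or_ne h 0 with rfl | h0
  · by_cases g0 : ∃ j, g j = 0
    · obtain ⟨j, hj⟩ := g0
      exact .of_uzero (uzero_empty fun _ _ a => a.2.2 j (by rw [hj, map_zero]))
    choose ρ _ y c e using fun j => exists_fac (hg j)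
    have c0 (j : Fin r) : c j ≠ 0 := fun e' => g0 ⟨j, by rw [e j, e', map_zero, zero_mul]⟩
    have ev {K : Fld k} (s : K) (j : Fin r) : Polynomial.aeval s (g j) =
        algebraMap k K (c j) * ∏ i, (algebraMap k K (y j i) - s) := by
      rw [e j]
      simp
    refine .of_eqv (pb_congr fun K x _ => ⟨?_, fun _ => ?_⟩) (sf_tw_odd χ h₁ Finset.univ
      (fun i : Σ j, ρ j => y i.1 i.2) (fun i => -t i.1) (c := ∏ j, (c j)⁻¹ ^ t j)
      (Finset.prod_ne_zero_iff.2 fun j _ => pow_ne_zero _ (inv_ne_zero (c0 j))) b hb)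
    · simp [ev, c0, Finset.prod_eq_zero_iff, sub_eq_zero, eq_comm (a := ∏ i, x i), Sigma.forall]
    · simp only [ev, Fintype.prod_sigma, map_prod, map_pow, map_inv₀, mul_inv, mul_pow, zpow_neg,
        zpow_natCast, Finset.prod_mul_distrib, ← inv_pow, Finset.prod_pow,
        Finset.prod_inv_distrib]
  · obtain ⟨ρ, _, y, c, e⟩ := exists_fac hh
    have c0 : c ≠ 0 := fun e' => h0 (by rw [e, e', map_zero, zero_mul])
    refine sf_fin (Finset.univ.image y) (fun a _ => ?_) fun K s a => ?_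
    · rcases eq_or_ne a 0 with rfl | ha
      · exact .of_uzero (uzero_empty fun _ _ a => Finset.prod_ne_zero_iff.2
          (fun i _ => (a.1.2 i).1) (a.2.trans (map_zero _)))
      · exact sf_tor_odd h₁ ha b hb
    · simpa [e, c0, Finset.prod_eq_zero_iff, sub_eq_zero, eq_comm (a := s)] using a.1

end Cv

open MvPolynomial in
theorem main_tw {N : ℕ} (hN : 1 < N) {ζ : k} (hζ : IsPrimitiveRoot ζ N) {n r : ℕ}
    (b : Fin r → Fin n → ℕ) (h0 : ∀ i, ∃ j, b j i ≠ 0)
    (hb : ∀ t : Fin r → ZMod N,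
      {v : ZMod N | v ≠ 0 ∧ Odd {i | ∑ j, t j * b j i = v}.ncard}.ncard ≤ 2)
    {h : Polynomial k} (hh : h.Splits) {g : Fin r → Polynomial k} (hg : ∀ j, (g j).Splits) :
    SchurFinite (k := k) (σ := Fin n ⊕ Fin r) fun o : Option (Fin r) =>
      o.elim (aeval ![∏ i, X (some (.inl i)), X none ^ n] (h.homogenize h.natDegree)) fun j =>
        X (some (.inr j)) ^ N *
            aeval ![∏ i, X (some (.inl i)), X none ^ n] ((g j).homogenize (g j).natDegree) *
            ∏ i, (X none - X (some (.inl i))) ^ b j i -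
          X none ^ (N + n * (g j).natDegree + ∑ i, b j i) := by
  have : NeZero N := ⟨by omega⟩
  let χ : Chr k ℂ := ⟨N, ζ, hζ, Nat.cast_ne_zero.2 (NeZero.ne N), ZMod.stdAddChar⟩
  let χ₀ : Chr k ℂ := ⟨N, ζ, hζ, Nat.cast_ne_zero.2 (NeZero.ne N), 1⟩
  have hχ : χ.ψ (1 : ℤ) ≠ 1 := fun h => by
    have : Fact (1 < N) := ⟨hN⟩
    have h1 := ((ZMod.isPrimitive_stdAddChar N).zmod_char_eq_one_iff N _).1 h
    rw [Int.cast_one] at h1
    exact one_ne_zero h1
  let S : Pt k := (Cv.mn h g 0).pb (pbx k (0 : Fin n → ℤ)) _ (regF_prod _)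
  have np {K : Fld k} {x : Fin n → K} (h : ∀ i, x i ≠ 1) (m : Fin n → ℕ) :
      ∏ i, (1 - x i) ^ m i ≠ 0 :=
    Finset.prod_ne_zero_iff.2 fun i _ => pow_ne_zero _ (sub_ne_zero.2 (h i).symm)
  have g0 (j : Fin r) ⦃K : Fld k⦄ (x : S.X K) (a : S.L x) :
      Polynomial.aeval (∏ i, x i) (g j) * ∏ i, (1 - x i) ^ b j i ≠ 0 :=
    mul_ne_zero (a.2.2 j) (np a.1.2 _)
  have rg (j : Fin r) : S.RegF fun _ x =>
      (Polynomial.aeval (∏ i, x i) (g j) * ∏ i, (1 - x i) ^ b j i)⁻¹ :=
    fun _ _ φ _ y _ a s => ((rel_aeval (Place.prod fun i _ => s i) _).mul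
      (Place.prod fun i _ => (φ.one.sub (s i)).pow _)).inv (g0 j y a)
  have hs : SF ((S.mcov _ rg N).E χ₀) := by
    refine sf_mcov S _ _ (fun j _ x a => inv_ne_zero (g0 j x a)) χ
      (ZMod.isPrimitive_stdAddChar N) χ₀ rfl fun t => SF.of_eqv (Eqv.symm (eqv_twist (t := N)
        (S := (Cv.mn h g fun j => (t j).val).pb
          (pbx k fun i => ((∑ j, t j * b j i : ZMod N).val : ℤ)) _ (regF_prod _))
        (e := fun _ x => x) (g := fun _ x => x) (by simp)
        ⟨fun _ _ h => h, fun _ _ _ _ _ _ _ h => h⟩ ⟨fun _ _ h => h, fun _ _ _ _ _ _ _ h => h⟩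
        (w := fun _ x => (∏ i, (1 - x i) ^ ((∑ j, (t j).val * b j i) / N))⁻¹)
        (fun _ _ φ _ _ _ a s => (Place.prod fun i _ => (φ.one.sub (s i)).pow _).inv (np a.1.2 _))
        (fun _ x h => inv_ne_zero (np h.1.2 _)) (fun _ x h => ?_) (fun _ _ _ => rfl)
        fun _ _ _ => rfl)) (Cv.sf_pbx χ hχ (Cv.sf_mn hχ hh hg _ _ (hb t)))
    change ∏ j, (Polynomial.aeval (∏ i, x i) (g j) * ∏ i, (1 - x i) ^ b j i)⁻¹ ^ (t j).val =
      (∏ i, (1 - x i) ^ (-((∑ j, t j * b j i : ZMod N).val : ℤ))) *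
        (∏ j, (Polynomial.aeval (∏ i, x i) (g j))⁻¹ ^ (t j).val) *
        (∏ i, (1 - x i) ^ ((∑ j, (t j).val * b j i) / N))⁻¹ ^ (N : ℤ)
    rw [mul_right_comm, mul_comm]
    simp only [mul_inv, mul_pow]
    rw [Finset.prod_mul_distrib]
    congr 1
    simp only [zpow_neg, zpow_natCast, inv_pow, Finset.prod_inv_distrib, ← mul_inv,
      ← Finset.prod_pow, ← pow_mul, ← Finset.prod_mul_distrib, ← pow_add]
    rw [Finset.prod_comm]
    refine congrArg _ (Finset.prod_congr rfl fun i _ => ?_)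
    rw [Finset.prod_pow_eq_pow_sum]
    congr 1
    have e : (∑ j, t j * b j i : ZMod N) = ((∑ j, (t j).val * b j i : ℕ) : ZMod N) := by simp
    rw [e, ZMod.val_natCast, Nat.mod_add_div']
    simp only [mul_comm]
  have hm (p : Polynomial k) : IsHomogeneous (aeval ![∏ i, X (some (.inl i)), X none ^ n]
      (p.homogenize p.natDegree) : MvPolynomial (Option (Fin n ⊕ Fin r)) k) (n * p.natDegree) :=
    Polynomial.isHomogeneous_homogenize p |>.aeval _ (Fin.forall_fin_two.2
      ⟨by simpa using IsHomogeneous.prod Finset.univ _ (fun _ : Fin n => 1) fun i _ =>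
        isHomogeneous_X k (some (Sum.inl i)), isHomogeneous_X_pow none n⟩)
  refine schurFinite_of_sf _ (fun j => ?_) χ₀ rfl ?_
  · rcases j with _ | j
    · exact ⟨_, hm h⟩
    · refine ⟨_, IsHomogeneous.sub (((isHomogeneous_X_pow _ _).mul (hm _)).mul
        (IsHomogeneous.prod Finset.univ _ (b j) fun i _ => ?_)) (isHomogeneous_X_pow _ _)⟩
      simpa using ((isHomogeneous_X k none).sub (isHomogeneous_X k (some (Sum.inl i)))).pow (b j i)
  · have he {K : Fld k} (x : Fin n ⊕ Fin r → K) (p : Polynomial k) :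
        aeval (fun o => Option.elim o 1 x) (aeval ![∏ i, X (some (.inl i)), X none ^ n]
          (p.homogenize p.natDegree) : MvPolynomial (Option (Fin n ⊕ Fin r)) k) =
        Polynomial.aeval (∏ i, x (.inl i)) p := by
      rw [← AlgHom.comp_apply, comp_aeval, Polynomial.aeval_homogenize_of_eq_one le_rfl _ (by simp)]
      simp
    have hl {K : Fld k} (x : Fin n ⊕ Fin r → K) : (∀ o : Option (Fin r),
        aeval (fun o => Option.elim o 1 x) (o.elim
          (aeval ![∏ i, X (some (.inl i)), X none ^ n] (h.homogenize h.natDegree) :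
            MvPolynomial (Option (Fin n ⊕ Fin r)) k) fun j => X (some (.inr j)) ^ N *
            aeval ![∏ i, X (some (.inl i)), X none ^ n] ((g j).homogenize (g j).natDegree) *
            ∏ i, (X none - X (some (.inl i))) ^ b j i -
          X none ^ (N + n * (g j).natDegree + ∑ i, b j i)) = 0) ↔
        Polynomial.aeval (∏ i, x (.inl i)) h = 0 ∧ ∀ j, x (.inr j) ^ N *
          (Polynomial.aeval (∏ i, x (.inl i)) (g j) * ∏ i, (1 - x (.inl i)) ^ b j i) = 1 := by
      simp only [Option.forall, Option.elim_none, Option.elim_some, map_sub, map_mul, he]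
      simp [sub_eq_zero, mul_assoc]
    refine .of_eqv (eqv_of_inv (S := aff _) (S' := S.mcov _ rg N)
      (e := fun _ x => (fun i => x (.inl i), fun j => x (.inr j)))
      (g := fun _ x => Sum.elim x.1 x.2)
      ⟨fun _ x h => ?_, fun _ _ _ _ _ _ _ h => ⟨fun _ => h _, fun _ => h _⟩⟩
      ⟨fun _ x h => ⟨fun _ => trivial, (hl _).2 ⟨h.1.1.2.1, fun j => ?_⟩⟩,
        fun _ _ _ _ _ _ _ h o => ?_⟩
      (fun _ _ _ => by simp) (fun _ x _ => funext fun o => by cases o <;> rfl) fun _ _ _ => rfl) hs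
    · obtain ⟨h1, h2⟩ := (hl x).1 h.2
      refine ⟨⟨⟨⟨fun _ => trivial, fun i e => ?_⟩, h1, fun j =>
        left_ne_zero_of_mul (right_ne_zero_of_mul ((h2 j).trans_ne one_ne_zero))⟩,
        fun _ => trivial⟩, fun j => eq_inv_of_mul_eq_one_left (h2 j)⟩
      obtain ⟨j, hj⟩ := h0 i
      have h3 := h2 j
      rw [Finset.prod_eq_zero (f := fun i => (1 - x (.inl i)) ^ b j i) (Finset.mem_univ i)
        (by rw [show x (.inl i) = 1 from e, sub_self, zero_pow hj]), mul_zero, mul_zero] at h3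
      exact zero_ne_one h3
    · exact (congrArg (· * _) (h.2 j)).trans (inv_mul_cancel₀ (g0 j _ h.1.1))
    · cases o
      exacts [h.1 _, h.2 _]

end

end Pool.Agent.Lib.MP_fc2ced_ag.T
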