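import Pool.Agent.Lib.MP_fc2ced_ag.W.Cur
import Pool.Agent.Lib.MP_fc2ced_ag.T.Main

/-! Reduction to nontrivial exponents, and the coordinate hyperplanes. -/

open CategoryTheory Function

namespace Pool.Agent.Lib.MP_fc2ced_ag.T

open K

noncomputable section

variable {k : Type} [Field k] {F : Type} [Field F] {χ : Chr k F}

open Ob MP_fc2ced_ag.T.Pt

variable (k) in
/-- Vectors with entries different from one, with the function `∏ (1 - x i) ^ (-b i)`. -/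
@[reducible] def pbx {α : Type} [Fintype α] (b : α → ℤ) : Pt k :=
  (((line k).pi α).restr (fun _ x => ∀ i, x i ≠ 1) (Open.conv fun _ _ _ _ _ _ _ r h i =>
    ne_one_of (r i) (h i))).withF (fun _ x => ∏ i, (1 - x i) ^ (-b i))
    (fun _ _ φ _ _ _ h r => Place.prod fun i _ =>
      rel_zpow (φ.one.sub (r i)) (sub_ne_zero.2 (h.2 i).symm) _)
    fun _ _ h => Finset.prod_ne_zero_iff.2 fun i _ => zpow_ne_zero _ (sub_ne_zero.2 (h.2 i).symm)

theorem regF_prod {α : Type} [Fintype α] (b : α → ℤ) : (pbx k b).RegF fun _ x => ∏ i, x i :=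
  fun _ _ _ _ _ _ _ r => Place.prod fun i _ => r i

namespace Cv

variable {D : Cv k}

theorem of_eq {K : Fld k} {s t : K} (e : s = t) (h : D.T t) : D.T s := e ▸ h

theorem sf_tw_equiv {α β : Type} [Fintype α] [Fintype β] (e : β ≃ α) {b : α → ℤ} {c : β → ℤ}
    (hc : ∀ j, c j = b (e j)) (h : SF ((D.tw c).E χ)) : SF ((D.tw b).E χ) := by
  obtain rfl : c = b ∘ e := funext hc
  exact SF.of_eqv (eqv_of_inv (S' := D.tw (b ∘ e)) (e := fun _ x => x ∘ e)
    (g := fun _ y => y ∘ e.symm)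
    ⟨fun _ x h => ⟨⟨fun _ => trivial, fun _ => h.1.2 _⟩, of_eq (e.prod_comp x) h.2⟩,
      fun _ _ _ _ _ _ _ r _ => r _⟩
    ⟨fun _ x h => ⟨⟨fun _ => trivial, fun _ => h.1.2 _⟩, of_eq (e.symm.prod_comp x) h.2⟩,
      fun _ _ _ _ _ _ _ r _ => r _⟩
    (fun _ x _ => congrArg₂ (· * D.g ·) (e.prod_comp fun i => (1 - x i) ^ (-b i)) (e.prod_comp x))
    (fun _ _ _ => by ext; simp) fun _ _ _ => by ext; simp) h

variable [CharZero F] (χ₁ : Chr k F) (h₁ : χ₁.ψ (1 : ℤ) ≠ 1)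
include h₁

/-- An index on which the character is trivial is added. -/
theorem sf_tw_option (hD : SF (D.cur.E χ)) {α : Type} [Fintype α] {b : Option α → ℤ}
    (hb : χ.ψ (b none) = 1) (h : SF ((D.tw (b ∘ some)).E χ)) : SF ((D.tw b).E χ) := by
  have cl : ((box k (b ∘ some)).prod D.cur).Closed fun K x => x.2 = ∏ i, x.1 i :=
    fun _ _ φ _ _ _ _ h e => h.2.eq_of (Place.prod fun i _ => h.1 i) e
  have h0 {K : Fld k} {β : Type} [Fintype β] {y : β → K} (hy : ∀ i, y i ≠ 0 ∧ y i ≠ 1) :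
      ∏ i, y i ≠ 0 := Finset.prod_ne_zero_iff.2 fun i _ => (hy i).1
  have e {K : Fld k} {y : α → K} (hy : ∀ i, y i ≠ 0 ∧ y i ≠ 1) (t : K) :
      ∏ i : Option α, i.elim (t / ∏ i, y i) y = t :=
    (Fintype.prod_option _).trans (div_mul_cancel₀ _ (h0 hy))
  refine SF.of_eqv (eqv_twist (S' := ((box k (b ∘ some)).prod D.cur).restr _ cl.not.conv) hb
    (e := fun _ x => (x ∘ some, ∏ i, x i)) (g := fun K y i => i.elim (y.2 / ∏ i, y.1 i) y.1)
    ⟨fun _ x h => ⟨⟨⟨fun _ => trivial, fun _ => h.1.2 _⟩, ⟨trivial, h0 h.1.2⟩, h.2⟩,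
        fun e => (h.1.2 none).2 ?_⟩,
      fun _ _ _ _ _ _ _ r => ⟨fun _ => r _, Place.prod fun i _ => r i⟩⟩
    ⟨fun _ y h => ⟨⟨fun _ => trivial, Option.rec ⟨div_ne_zero h.1.2.1.2 (h0 h.1.1.2),
        fun e => h.2 ((div_eq_one_iff_eq (h0 h.1.1.2)).1 e)⟩ h.1.1.2⟩,
        of_eq (e h.1.1.2 _) h.1.2.2⟩,
      fun _ _ φ _ _ _ h r => Option.rec (r.2.div (Place.prod fun i _ => r.1 i) (h0 h.1.1.2)) r.1⟩
    (w := fun _ x => 1 - x none) (fun _ _ φ _ _ _ _ r => φ.one.sub (r none))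
    (fun _ _ h => sub_ne_zero.2 (h.1.2 none).2.symm) (fun _ x h => ?_) (fun _ x h => ?_)
    fun _ _ h => Prod.ext rfl (e h.1.1.2 _))
    (sf_ses₃ χ₁ h₁ (Pt.ses_closed cl) (.of_eqv (eqv_of_inv (S' := D.tw (b ∘ some))
      (e := fun _ x => x.1) (g := fun _ x => (x, ∏ i, x i))
      ⟨fun _ _ h => ⟨h.1.1, of_eq h.2.symm h.1.2.2⟩, fun _ _ _ _ _ _ _ r => r.1⟩
      ⟨fun _ _ h => ⟨⟨h.1, ⟨trivial, h0 h.1.2⟩, h.2⟩, rfl⟩,
        fun _ _ _ _ _ _ _ r => ⟨r, Place.prod fun i _ => r i⟩⟩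
      (fun _ x h => congrArg (_ * ·) ((congrArg (D.g ·) h.2.symm).trans (one_mul _).symm))
      (fun _ _ h => Prod.ext rfl h.2.symm) fun _ _ _ => rfl) h) (sf_prod (sf_box χ₁ h₁ χ _) hD))
  · exact mul_right_cancel₀ (h0 fun i => h.1.2 (some i))
      (((Fintype.prod_option x).symm.trans e).trans (one_mul _).symm)
  · change (∏ i, (1 - x (some i)) ^ (-b (some i))) * (1 * D.g (∏ i, x i)) =
      (∏ i, (1 - x i) ^ (-b i)) * D.g (∏ i, x i) * (1 - x none) ^ b none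
    rw [Fintype.prod_option fun i => (1 - x i) ^ (-b i), zpow_neg (1 - x none)]
    have := zpow_ne_zero (b none) (sub_ne_zero.2 (h.1.2 none).2.symm)
    field_simp
  · refine funext (Option.rec ?_ fun _ => rfl)
    exact (div_eq_iff (h0 fun i => h.1.2 (some i))).2 (Fintype.prod_option x)

theorem sf_tw_sum (hD : SF (D.cur.E χ)) {α : Type} [Fintype α] {b : α → ℤ}
    (h : SF ((D.tw b).E χ)) {β : Type} [Fintype β] (c : β → ℤ) (hc : ∀ j, χ.ψ (c j) = 1) :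
    SF ((D.tw (Sum.elim b c)).E χ) := by
  refine Fintype.induction_empty_option (P := fun β _ => ∀ c : β → ℤ, (∀ j, χ.ψ (c j) = 1) →
    SF ((D.tw (Sum.elim b c)).E χ)) (fun β γ _ e ih c hc => ?_) (fun c _ => ?_)
    (fun β _ ih c hc => ?_) β c hc
  · let _ : Fintype β := Fintype.ofEquiv γ e.symm
    exact sf_tw_equiv ((Equiv.refl α).sumCongr e) (Sum.rec (fun _ => rfl) fun _ => rfl)
      (ih (c ∘ e) fun _ => hc _)
  · exact sf_tw_equiv (Equiv.sumEmpty α _).symm (fun _ => rfl) h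
  · let e : Option (α ⊕ β) ≃ α ⊕ Option β :=
      ⟨fun o => o.elim (.inr none) (Sum.map id some),
        Sum.elim (fun x => some (.inl x)) (Option.map .inr),
        by rintro (_ | _ | _) <;> rfl, by rintro (_ | _ | _) <;> rfl⟩
    exact sf_tw_equiv e (fun _ => rfl) (sf_tw_option χ₁ h₁ hD (hc none)
      (sf_tw_equiv (Equiv.refl _) (Sum.rec (fun _ => rfl) fun _ => rfl)
        (ih (c ∘ some) fun _ => hc _)))

variable {ρ : Type} (s : Finset ρ) (y : ρ → k) (e : ρ → ℤ) {c : k} (hc : c ≠ 0)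

/-- The case of one variable. -/
theorem sf_tw_one (b : Fin 1 → ℤ) : SF (((op s y e hc).tw b).E χ) :=
  .of_eqv (eqv_of_inv (S' := (op (Finset.insertNone s) (·.elim 1 y) (·.elim (-b 0) e) hc).cur)
    (e := fun _ x => x 0) (g := fun _ x _ => x)
    ⟨fun _ x h => ⟨⟨trivial, (h.1.2 0).1⟩, Finset.forall_mem_insertNone.2
        ⟨by simpa using (h.1.2 0).2, by simpa using h.2⟩⟩, fun _ _ _ _ _ _ _ r => r 0⟩
    ⟨fun _ x h => ⟨⟨fun _ => trivial, fun _ => ⟨h.1.2, by simpa using h.2 none (by simp)⟩⟩,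
        fun j hj => by simpa using h.2 (some j) (by simpa using hj)⟩, fun _ _ _ _ _ _ _ r _ => r⟩
    (fun _ x _ => by simp [Finset.prod_insertNone, mul_left_comm])
    (fun _ _ _ => funext fun i => by rw [Subsingleton.elim i 0]) fun _ _ _ => rfl)
    (sf_cur χ₁ h₁ _ _ _ hc)

/-- At most two nonzero exponents occur an odd number of times. -/
theorem sf_tw_odd {α : Type} [Fintype α] (b : α → ZMod χ.N)
    (hb : {v | v ≠ 0 ∧ Odd {i | b i = v}.ncard}.ncard ≤ 2) :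
    SF (((op s y e hc).tw fun i => ((b i).val : ℤ)).E χ) := by
  classical
  obtain ⟨τ, t1, t2, t3, t4⟩ := MainAux.exists_invol b
  refine sf_tw_equiv (Equiv.sumCompl fun i => χ.ψ ((b i).val : ℤ) ≠ 1)
    (Sum.rec (fun _ => rfl) fun _ => rfl)
    (sf_tw_sum χ₁ h₁ (sf_cur χ₁ h₁ s y e hc) (b := fun i => (b i.1).val) ?_
      (fun i => (b i.1).val) fun i => not_not.1 i.2)
  rcases isEmpty_or_nonempty {i // χ.ψ ((b i).val : ℤ) ≠ 1} with _ | _
  · exact sf_sub fun _ _ _ _ _ => Subsingleton.elim _ _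
  obtain ⟨m, u, hu⟩ := exists_polygon (α := {i // χ.ψ ((b i).val : ℤ) ≠ 1})
    (fun i => ⟨τ i.1, (t2 i.1).symm ▸ i.2⟩) (fun i => Subtype.ext (t1 i.1))
    fun x y z hx hy hz => by
      have v (i : {i // χ.ψ ((b i).val : ℤ) ≠ 1}) (h : τ i.1 = i.1) :
          b i.1 ∈ {v | v ≠ 0 ∧ Odd {i | b i = v}.ncard} :=
        ⟨fun e => i.2 (by simp [e]), t3 _ h⟩
      replace hx : τ x.1 = x.1 := congrArg Subtype.val hx
      replace hy : τ y.1 = y.1 := congrArg Subtype.val hy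
      replace hz : τ z.1 = z.1 := congrArg Subtype.val hz
      by_contra h
      simp only [not_or, Subtype.ext_iff] at h
      have h3 : ({b x.1, b y.1, b z.1} : Set (ZMod χ.N)).ncard = 3 := Set.ncard_eq_three.2
        ⟨_, _, _, fun e => h.1 (t4 _ _ hx hy e), fun e => h.2.2 (t4 _ _ hz hx e.symm),
          fun e => h.2.1 (t4 _ _ hy hz e), rfl⟩
      have h4 := Set.ncard_le_ncard (Set.insert_subset (v x hx) (Set.insert_subset (v y hy)
        (Set.singleton_subset_iff.2 (v z hz))))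
      omega
  refine sf_tw_equiv u (fun _ => rfl) ?_
  rcases m with _ | m
  · exact sf_tw_one χ₁ h₁ s y e hc _
  let _ : Ex (m + 1 + 1) := ⟨fun i => (b (u i).1).val, fun i => by
    rcases hu i with h | h
    · rw [h, t2]
    · rw [h]⟩
  exact W.sf_gen (n := m + 1 + 1) s y e hc (fun i => (u i).2) (by omega)

omit h₁ in
theorem closed_some {α : Type} [Fintype α] (b : α → ℤ) : (pbx k b).Closed fun _ x => ∃ i, x i = 0 :=
  fun _ _ φ _ _ _ _ r ⟨i, e⟩ => ⟨i, (r i).eq_of φ.zero e⟩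

/-- The union of the coordinate hyperplanes. -/
theorem sf_axes {α : Type} [Fintype α] (b : α → ℤ) :
    SF ((pbx k b).E χ) ∧ SF (((pbx k b).restr _ (closed_some b).conv).E χ) := by
  refine Fintype.induction_empty_option (P := fun α _ => ∀ b : α → ℤ,
    SF ((pbx k b).E χ) ∧ SF (((pbx k b).restr _ (closed_some b).conv).E χ))
    (fun α β _ e ih b => ?_) (fun b => ?_) (fun α _ ih b => ?_) α b
  · let _ : Fintype α := Fintype.ofEquiv β e.symm
    refine ⟨SF.of_eqv (eqv_of_inv (S' := pbx k (b ∘ e)) (e := fun _ x => x ∘ e)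
      (g := fun _ y => y ∘ e.symm)
      ⟨fun _ _ h => ⟨fun _ => trivial, fun _ => h.2 _⟩, fun _ _ _ _ _ _ _ r _ => r _⟩
      ⟨fun _ _ h => ⟨fun _ => trivial, fun _ => h.2 _⟩, fun _ _ _ _ _ _ _ r _ => r _⟩
      (fun _ x _ => e.prod_comp fun i => (1 - x i) ^ (-b i)) (fun _ _ _ => by ext; simp)
      fun _ _ _ => by ext; simp) (ih _).1, SF.of_eqv (eqv_of_inv
      (S' := (pbx k (b ∘ e)).restr _ (closed_some _).conv) (e := fun _ x => x ∘ e)
      (g := fun _ y => y ∘ e.symm)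
      ⟨fun _ _ h => ⟨⟨fun _ => trivial, fun _ => h.1.2 _⟩, e.surjective.exists.1 h.2⟩,
        fun _ _ _ _ _ _ _ r _ => r _⟩
      ⟨fun _ _ h => ⟨⟨fun _ => trivial, fun _ => h.1.2 _⟩, e.symm.surjective.exists.1 h.2⟩,
        fun _ _ _ _ _ _ _ r _ => r _⟩
      (fun _ x _ => e.prod_comp fun i => (1 - x i) ^ (-b i)) (fun _ _ _ => by ext; simp)
      fun _ _ _ => by ext; simp) (ih _).2⟩
  · exact ⟨sf_sub fun _ _ _ _ _ => Subsingleton.elim _ _,
      sf_sub fun _ _ _ _ _ => Subsingleton.elim _ _⟩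
  · have cl : ((pbx k b).restr _ (closed_some b).conv).Closed fun _ x => x none = 0 :=
      fun _ _ φ _ _ _ _ r e => (r none).eq_of φ.zero e
    have pr {K : Fld k} (x : Option α → K) : (∏ i, (1 - x (some i)) ^ (-b (some i))) *
        (1 - x none) ^ (-b none) = ∏ i, (1 - x i) ^ (-b i) :=
      (mul_comm _ _).trans (Fintype.prod_option fun i => (1 - x i) ^ (-b i)).symm
    refine ⟨SF.of_eqv (eqv_of_inv (S' := (pbx k (b ∘ some)).prod (pun k (-b none)))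
      (e := fun _ x => (x ∘ some, x none)) (g := fun _ y i => i.elim y.2 y.1)
      ⟨fun _ _ h => ⟨⟨fun _ => trivial, fun _ => h.2 _⟩, trivial, h.2 _⟩,
        fun _ _ _ _ _ _ _ r => ⟨fun _ => r _, r _⟩⟩
      ⟨fun _ _ h => ⟨fun _ => trivial, Option.rec h.2.2 h.1.2⟩,
        fun _ _ _ _ _ _ _ r => Option.rec r.2 r.1⟩
      (fun _ x _ => pr x) (fun _ _ _ => funext (Option.rec rfl fun _ => rfl)) fun _ _ _ => rfl)
      (sf_prod (ih _).1 (sf_pun χ₁ h₁ χ _)), SF.ses₂ (ses_closed cl) (con _) (con _)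
      (SF.of_eqv (eqv_of_inv (S' := pbx k (b ∘ some)) (e := fun _ x => x ∘ some)
        (g := fun _ y i => i.elim 0 y)
        ⟨fun _ _ h => ⟨fun _ => trivial, fun _ => h.1.1.2 _⟩, fun _ _ _ _ _ _ _ r _ => r _⟩
        ⟨fun _ _ h => ⟨⟨⟨fun _ => trivial, Option.rec zero_ne_one h.2⟩, none, rfl⟩, rfl⟩,
          fun _ _ φ _ _ _ _ r => Option.rec φ.zero r⟩
        (fun _ x h => Eq.trans ?_ (pr x)) (fun _ _ h => funext (Option.rec h.2.symm fun _ => rfl))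
        fun _ _ _ => rfl) (ih _).1)
      (SF.of_eqv (eqv_of_inv (S' := ((pbx k (b ∘ some)).restr _ (closed_some _).conv).prod
        ((pun k (-b none)).restr _ (closed_zero _).not.conv))
        (e := fun _ x => (x ∘ some, x none)) (g := fun _ y i => i.elim y.2 y.1)
        ⟨fun _ _ h => ⟨⟨⟨fun _ => trivial, fun _ => h.1.1.2 _⟩,
            (Option.exists.1 h.1.2).resolve_left h.2⟩, ⟨trivial, h.1.1.2 _⟩, h.2⟩,
          fun _ _ _ _ _ _ _ r => ⟨fun _ => r _, r _⟩⟩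
        ⟨fun _ _ h => ⟨⟨⟨fun _ => trivial, Option.rec h.2.1.2 h.1.1.2⟩,
            Option.exists.2 (.inr h.1.2)⟩, h.2.2⟩, fun _ _ _ _ _ _ _ r => Option.rec r.2 r.1⟩
        (fun _ x _ => pr x) (fun _ _ _ => funext (Option.rec rfl fun _ => rfl)) fun _ _ _ => rfl)
        (sf_prod (ih _).2 (sf_pun₂ χ₁ h₁ χ _)))⟩
    rw [show x none = 0 from h.2, sub_zero, one_zpow, mul_one]
    rfl

/-- The coordinate hyperplanes are added. -/
theorem sf_pbx {α : Type} [Fintype α] {b : α → ℤ} (h : SF ((D.tw b).E χ)) :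
    SF ((D.pb (pbx k b) _ (regF_prod b)).E χ) := by
  have e {K : Fld k} (x : α → K) : ∏ i, x i = algebraMap k K 0 ↔ ∃ i, x i = 0 := by
    simp [Finset.prod_eq_zero_iff]
  exact sf_pb₂ (closed_eq 0) (sf_fib 0 (.of_eqv (eqv_of_inv
      (S' := (pbx k b).restr _ (closed_some b).conv) (e := fun _ x => x) (g := fun _ x => x)
      ⟨fun _ x a => ⟨a.1, (e x).1 a.2⟩, fun _ _ _ _ _ _ _ r => r⟩
      ⟨fun _ x a => ⟨a.1, (e x).2 a.2⟩, fun _ _ _ _ _ _ _ r => r⟩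
      (fun _ _ _ => rfl) (fun _ _ _ => rfl) fun _ _ _ => rfl) (sf_axes χ₁ h₁ b).2))
    (.of_eqv (eqv_of_inv (S' := D.tw b) (e := fun _ x => x) (g := fun _ x => x)
      ⟨fun _ x a => ⟨⟨a.1.1, fun i => ⟨fun h => a.2.2 ((e x).2 ⟨i, h⟩), a.1.2 i⟩⟩, a.2.1⟩,
        fun _ _ _ _ _ _ _ r => r⟩
      ⟨fun _ x a => ⟨⟨a.1.1, fun i => (a.1.2 i).2⟩, a.2, fun h =>
        ((e x).1 h).elim fun i => (a.1.2 i).1⟩, fun _ _ _ _ _ _ _ r => r⟩
      (fun _ _ _ => rfl) (fun _ _ _ => rfl) fun _ _ _ => rfl) h)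

end Cv

end

end Pool.Agent.Lib.MP_fc2ced_ag.T
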